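import Pool.Agent.V7H64.LR.Gate

/-!
# Products and sums of dimensions
-/

set_option autoImplicit false

namespace Pool.Agent.V7H64.LR

open Pool.Agent.TH744.LR Module Function

namespace Parts

variable {n : ℕ} {X Y : Type} {S : Parts n X Y}

theorem swap_val (x : X) (y : Y) : S.swap.val y x = S.val x y := rfl

theorem swap_at (j : Fin n) (v : Bool) : S.swap.At j v ↔ S.At j v := by
  constructor
  · rintro ⟨a, b, h⟩
    exact ⟨b, a, h⟩
  · rintro ⟨a, b, h⟩
    exact ⟨b, a, h⟩

theorem swap_att (r : Fin n → Bool) : S.swap.Att r ↔ S.Att r :=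
  forall_congr' fun j => swap_at j (r j)

theorem swap_mixed {g : (Fin n → Bool) → Bool} {j l : Fin n} (h : S.Mixed g j l) :
    S.swap.Mixed g j l := by
  obtain ⟨r, hr, hne⟩ := h
  exact ⟨r, (swap_att r).2 hr, hne⟩

/-- the product of the dimensions of two inner functions with a mixed term -/
theorem mixed_mu {g : (Fin n → Bool) → Bool} {j l : Fin n} [Finite X] [Finite Y]
    [Finite (S.X' j)] [Finite (S.Y' j)] (hm : S.Mixed g j l) :
    mu (S.f l) * mu (S.f j) ≤ mu (S.cmp g) := by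
  have h1 : tau (S.f l) ≤ (S.lens g j).rk := mixed_tau hm
  have h2 : tau (tr (S.f l)) ≤ (S.lens g j).rk := by
    have h3 : tau (S.swap.f l) ≤ (S.swap.lens g j).rk := mixed_tau (swap_mixed hm)
    have h4 : (S.swap.lens g j).rk = (S.lens g j).swap.rk := by
      unfold Lens.rk Lens.US
      rfl
    rw [h4, (S.lens g j).rk_swap] at h3
    exact h3
  have h3 : mu (S.f l) ≤ (S.lens g j).rk := max_le h1 h2
  exact (Nat.mul_le_mul_right _ h3).trans (S.lens g j).rk_mu

/-- the sum of the dimensions of two inner functions without a mixed term -/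
theorem add_tau {g : (Fin n → Bool) → Bool} {j l : Fin n} (hjl : j ≠ l) [Finite X] [Finite Y]
    (hm : ¬ S.Mixed g l j) (hj : S.Sens g j) (hl : S.Sens g l) :
    tau (S.f j) + tau (S.f l) ≤ tau (S.cmp g) + 1 := by
  obtain ⟨r₁, hr₁, h1⟩ := hj
  obtain ⟨x₁, y₁, rfl⟩ := hr₁.exists_val
  obtain ⟨r₂, hr₂, h2⟩ := hl
  obtain ⟨x₂, y₂, rfl⟩ := hr₂.exists_val
  have main : ∀ (m : Fin n) (x : X) (y : Y), dv g (S.val x y) m ≠ 0 →
      ∃ A : (S.Y' m → ℝ) →ₗ[ℝ] (Y → ℝ), (∀ d y', A d y' = dv g (S.val x y') m * d (S.q m y')) ∧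
        (DS (S.f m)).map A ≤ DS (S.cmp g) ∧ finrank ℝ ((DS (S.f m)).map A) = tau (S.f m) := by
    intro m x y hxy
    let A : (S.Y' m → ℝ) →ₗ[ℝ] (Y → ℝ) :=
      { toFun := fun d y' => dv g (S.val x y') m * d (S.q m y')
        map_add' := fun d e => by funext y; simp [mul_add]
        map_smul' := fun c d => by
          funext y
          simp only [Pi.smul_apply, smul_eq_mul, RingHom.id_apply]
          ring }
    have hA : Function.Injective A := by
      intro d e hde
      funext b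
      have h3 := congrFun hde (S.iy m y b)
      have h4 : dv g (S.val x (S.iy m y b)) m * d (S.q m (S.iy m y b)) =
        dv g (S.val x (S.iy m y b)) m * e (S.q m (S.iy m y b)) := h3
      have h5 : dv g (S.val x (S.iy m y b)) m = dv g (S.val x y) m :=
        (S.lens g m).P_k x y b
      rw [h5, q_iy_same] at h4
      exact mul_left_cancel₀ hxy h4
    refine ⟨A, fun _ _ => rfl, ?_, ?_⟩
    · rintro _ ⟨d, hd, rfl⟩
      exact (S.lens g m).mul_mem (Submodule.subset_span ⟨x, rfl⟩ :
        (fun y' => (S.lens g m).P x y') ∈ (S.lens g m).US) hd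
    · exact LinearEquiv.finrank_eq (Submodule.equivMapOfInjective A hA _).symm
  obtain ⟨A, hA, hA1, hA2⟩ := main j x₁ y₁ h1
  obtain ⟨B, hB, hB1, hB2⟩ := main l x₂ y₂ h2
  have hinf : (DS (S.f j)).map A ⊓ (DS (S.f l)).map B ≤
      Submodule.span ℝ {A (fun _ => 1)} := by
    rintro v ⟨⟨d, _, rfl⟩, ⟨e, _, he⟩⟩
    rw [Submodule.mem_span_singleton]
    have hc : ∀ b, dv g (S.val x₁ y₁) j * d b =
        dv g (update (S.val x₂ y₁) j false) l * e (S.q l y₁) := by
      intro b
      have h3 := congrFun he (S.iy j y₁ b)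
      rw [hA, hB, S.q_iy_same, S.q_iy_ne hjl.symm] at h3
      have h5 : dv g (S.val x₁ (S.iy j y₁ b)) j = dv g (S.val x₁ y₁) j :=
        (S.lens g j).P_k x₁ y₁ b
      rw [h5, S.val_iy] at h3
      rw [← h3]
      congr 1
      unfold Mixed at hm
      push Not at hm
      have h6 := hm _ (S.att_val x₂ y₁)
      cases S.f j (S.p j x₂) b
      · rfl
      · exact h6
    set c : ℝ := (dv g (S.val x₁ y₁) j)⁻¹ *
      (dv g (update (S.val x₂ y₁) j false) l * e (S.q l y₁)) with hcdef
    have hd : d = c • fun _ => (1 : ℝ) := by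
      funext b
      rw [Pi.smul_apply, smul_eq_mul, mul_one, hcdef, ← hc b]
      field_simp
    refine ⟨c, ?_⟩
    rw [← map_smul, ← hd]
  have h3 : finrank ℝ ↥((DS (S.f j)).map A ⊓ (DS (S.f l)).map B) ≤ 1 :=
    (Submodule.finrank_mono hinf).trans ((finrank_span_le_card _).trans (by simp))
  have h4 := Submodule.finrank_sup_add_finrank_inf_eq ((DS (S.f j)).map A) ((DS (S.f l)).map B)
  have h5 : finrank ℝ ↥((DS (S.f j)).map A ⊔ (DS (S.f l)).map B) ≤ tau (S.cmp g) :=
    Submodule.finrank_mono (sup_le hA1 hB1)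
  rw [hA2, hB2] at h4
  omega

/-- at most one inner function is large -/
theorem large_unique {g : (Fin n → Bool) → Bool} {j l : Fin n} (hjl : j ≠ l) [Finite X] [Finite Y]
    [Finite (S.X' j)] [Finite (S.Y' j)] [Finite (S.X' l)] [Finite (S.Y' l)]
    (hj : S.Sens g j) (hl : S.Sens g l) {R : ℕ} (hR : 6 ≤ R) (hF : mu (S.cmp g) ≤ R)
    (h1 : 3 * R < 4 * mu (S.f j)) (h2 : 3 * R < 4 * mu (S.f l)) : False := by
  by_cases hm : S.Mixed g l j
  · have := mixed_mu hm
    nlinarith
  · have h3 := add_tau hjl hm hj hl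
    have h4 := mu_le_tau (S.f j)
    have h5 := mu_le_tau (S.f l)
    have h6 : tau (S.cmp g) ≤ mu (S.cmp g) := le_max_left _ _
    omega

end Parts

end Pool.Agent.V7H64.LR
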