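import Pool.Agent.V7H64.LR.Eval

/-!
# Chains
-/

set_option autoImplicit false

namespace Pool.Agent.V7H64.LR

open Pool.Agent.TH744.LR Module Function

theorem bv_sub_one {t f : Bool} (h : bv t - bv f = 1) : t = true ∧ f = false := by
  cases t <;> cases f
  · exfalso
    simp [bv] at h
  · exfalso
    norm_num [bv] at h
  · exact ⟨rfl, rfl⟩
  · exfalso
    simp [bv] at h

theorem Lens.H_one {X Y Z W : Type} {F : X → Y → Bool} {z : Z → W → Bool} (L : Lens F z) {x : X}
    {y : Y} (h : L.P x y = 1) (v : Bool) : L.H x y v = v := by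
  obtain ⟨h1, h2⟩ := bv_sub_one h
  cases v
  · exact h2
  · exact h1

theorem Lens.H_neg {X Y Z W : Type} {F : X → Y → Bool} {z : Z → W → Bool} (L : Lens F z) {x : X}
    {y : Y} (h : L.P x y = -1) (v : Bool) : L.H x y v = !v := by
  have h' : bv (L.H x y false) - bv (L.H x y true) = 1 := by
    unfold Lens.P at h
    linarith
  obtain ⟨h1, h2⟩ := bv_sub_one h'
  cases v
  · exact h1
  · exact h2

/-- the players know numbers `iA x`, `iB y ≤ N`; for each value `i` of their minimum, `F` is, up to
signs known to the players, computed with `E` bits -/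
def Chn {X Y : Type} (N E : ℕ) (F : X → Y → Bool) : Prop :=
  ∃ (iA : X → ℕ) (iB : Y → ℕ) (a : X → ℕ → Bool) (b : Y → ℕ → Bool) (G : ℕ → X → Y → Bool),
    (∀ x, iA x ≤ N) ∧ (∀ y, iB y ≤ N) ∧
    (∀ i, On (fun x y => min (iA x) (iB y) = i) (G i) E) ∧
    ∀ x y, F x y = xor (xor (a x (min (iA x) (iB y))) (b y (min (iA x) (iB y))))
      (G (min (iA x) (iB y)) x y)

theorem Chn.base {X Y : Type} {E : ℕ} {F : X → Y → Bool} (h : Prot F E) : Chn 0 E F :=
  ⟨fun _ => 0, fun _ => 0, fun _ _ => false, fun _ _ => false, fun _ => F, fun _ => le_rfl,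
    fun _ => le_rfl, fun _ => On.of h _, fun _ _ => by simp⟩

theorem Chn.step {X Y Z W : Type} {N E : ℕ} {F : X → Y → Bool} {z : Z → W → Bool}
    (L : Lens F z) {u : X → ℝ} {w : Y → ℝ} (hP : ∀ x y, L.P x y = u x * w y)
    (hE : On (fun x y => u x * w y = 0) F E) (hz : Chn N E z) : Chn (N + 1) E F := by
  classical
  obtain ⟨iA, iB, a, b, G, h1, h2, h3, h4⟩ := hz
  have hmin : ∀ x y, min (if u x = 0 then 0 else iA (L.p x) + 1)
      (if w y = 0 then 0 else iB (L.q y) + 1) =
      if u x * w y = 0 then 0 else min (iA (L.p x)) (iB (L.q y)) + 1 := by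
    intro x y
    by_cases hu : u x = 0
    · simp [hu]
    · by_cases hw : w y = 0
      · simp [hw]
      · rw [if_neg hu, if_neg hw, if_neg (mul_ne_zero hu hw)]
        omega
  refine ⟨fun x => if u x = 0 then 0 else iA (L.p x) + 1,
    fun y => if w y = 0 then 0 else iB (L.q y) + 1,
    fun x i => match i with
      | 0 => false
      | i + 1 => xor (decide (u x < 0)) (a (L.p x) i),
    fun y i => match i with
      | 0 => false
      | i + 1 => xor (decide (w y < 0)) (b (L.q y) i),
    fun i => match i with
      | 0 => F
      | i + 1 => fun x y => G i (L.p x) (L.q y), ?_, ?_, ?_, ?_⟩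
  · intro x
    show (if u x = 0 then 0 else iA (L.p x) + 1) ≤ N + 1
    have := h1 (L.p x)
    split_ifs <;> omega
  · intro y
    show (if w y = 0 then 0 else iB (L.q y) + 1) ≤ N + 1
    have := h2 (L.q y)
    split_ifs <;> omega
  · intro i
    cases i with
    | zero =>
      refine hE.mono (fun x y hxy => ?_) le_rfl
      rw [hmin] at hxy
      by_contra hc
      rw [if_neg hc] at hxy
      omega
    | succ i =>
      refine ((h3 i).lift L.p L.q).mono (fun x y hxy => ?_) le_rfl
      rw [hmin] at hxy
      by_cases hc : u x * w y = 0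
      · rw [if_pos hc] at hxy
        omega
      · rw [if_neg hc] at hxy
        omega
  · intro x y
    rw [hmin]
    by_cases hc : u x * w y = 0
    · rw [if_pos hc]
      simp
    · rw [if_neg hc]
      show F x y = xor (xor (xor (decide (u x < 0)) (a (L.p x) (min (iA (L.p x)) (iB (L.q y)))))
        (xor (decide (w y < 0)) (b (L.q y) (min (iA (L.p x)) (iB (L.q y))))))
        (G (min (iA (L.p x)) (iB (L.q y))) (L.p x) (L.q y))
      have h5 := h4 (L.p x) (L.q y)
      have hPne : L.P x y ≠ 0 := by rwa [hP]
      have hH : L.H x y (z (L.p x) (L.q y)) = xor (xor (decide (u x < 0)) (decide (w y < 0)))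
          (z (L.p x) (L.q y)) := by
        rcases L.P_cases x y with h | h | h
        · exact absurd h hPne
        · have h6 : u x * w y = 1 := by rw [← hP, h]
          have h7 : decide (u x < 0) = decide (w y < 0) := by
            rcases lt_trichotomy (u x) 0 with hu | hu | hu
            · have hw : w y < 0 := by
                by_contra hw
                push Not at hw
                nlinarith
              simp [hu, hw]
            · rw [hu] at h6
              norm_num at h6
            · have hw : ¬ w y < 0 := by
                intro hw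
                nlinarith
              simp [hw, not_lt.2 hu.le]
          rw [h7, Bool.xor_self, Bool.false_xor]
          exact L.H_one h _
        · have h6 : u x * w y = -1 := by rw [← hP, h]
          have h7 : xor (decide (u x < 0)) (decide (w y < 0)) = true := by
            rcases lt_trichotomy (u x) 0 with hu | hu | hu
            · have hw : ¬ w y < 0 := by
                intro hw
                nlinarith
              simp [hu, hw]
            · rw [hu] at h6
              norm_num at h6
            · have hw : w y < 0 := by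
                by_contra hw
                push Not at hw
                nlinarith
              simp [hw, not_lt.2 hu.le]
          rw [h7, Bool.true_xor]
          exact L.H_neg h _
      rw [L.fac, hH, h5]
      generalize decide (u x < 0) = c1
      generalize decide (w y < 0) = c2
      generalize a (L.p x) _ = c3
      generalize b (L.q y) _ = c4
      generalize G _ (L.p x) (L.q y) = c5
      revert c1 c2 c3 c4 c5
      decide

theorem Chn.prot {X Y : Type} {N E : ℕ} {F : X → Y → Bool} (h : Chn N E F) :
    Prot F (2 * Nat.clog 2 (N + 1) + 2 + E) := by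
  obtain ⟨iA, iB, a, b, G, h1, h2, h3, h4⟩ := h
  choose G' hG' hGG' using h3
  have hN : N < 2 ^ Nat.clog 2 (N + 1) := by
    have := Nat.le_pow_clog (b := 2) (by norm_num) (N + 1)
    omega
  have hi : ∀ i, Prot (fun x y => xor (xor (a x i) (b y i)) (G' i x y)) (1 + (1 + E)) := by
    intro i
    have e1 : ∀ v w : Bool, Prot (fun x y => xor (xor v w) (G' i x y)) E := by
      intro v w
      have := Prot.bind (hG' i) (F := fun t _ _ => xor (xor v w) t) (b := 0)
        (fun t => Prot.const _)
      exact this
    have e2 : ∀ v : Bool, Prot (fun x y => xor (xor v (b y i)) (G' i x y)) (1 + E) := by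
      intro v
      have := Prot.bind (Prot.bob (X := X) (fun y : Y => b y i))
        (F := fun w x y => xor (xor v w) (G' i x y)) (b := E) (fun w => e1 v w)
      exact this
    have := Prot.bind (Prot.alice (Y := Y) (fun x : X => a x i))
      (F := fun v x y => xor (xor v (b y i)) (G' i x y)) (b := 1 + E) (fun v => e2 v)
    exact this
  have hB : ∀ i, Prot (fun x y => xor (xor (a x (min i (iB y))) (b y (min i (iB y))))
      (G' (min i (iB y)) x y)) (Nat.clog 2 (N + 1) + (1 + (1 + E))) := by
    intro i
    exact bobNat _ (fun j x y => xor (xor (a x (min i j)) (b y (min i j))) (G' (min i j) x y)) iB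
      (fun y => (h2 y).trans_lt hN) (fun j _ => hi (min i j))
  have hA := aliceNat _ (fun i x y => xor (xor (a x (min i (iB y))) (b y (min i (iB y))))
      (G' (min i (iB y)) x y)) iA (fun x => (h1 x).trans_lt hN) (fun i _ => hB i)
  have e : (fun x y => xor (xor (a x (min (iA x) (iB y))) (b y (min (iA x) (iB y))))
      (G' (min (iA x) (iB y)) x y)) = F := by
    funext x y
    rw [hGG' _ x y rfl, h4 x y]
  rw [e] at hA
  exact hA.mono (by omega)

/-- the flat case -/
theorem Lens.flatOn {X Y Z W : Type} [Finite X] [Finite Y] [Finite Z] [Finite W]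
    {F : X → Y → Bool} {z : Z → W → Bool} (L : Lens F z) {u : X → ℝ} {w : Y → ℝ}
    (hP : ∀ x y, L.P x y = u x * w y) {x₀ : X} {y₀ : Y} (h0 : L.P x₀ y₀ ≠ 0)
    (ht : tau F = tau z) (ht' : tau (tr F) = tau (tr z)) :
    On (fun x y => u x * w y = 0) F 2 := by
  classical
  have h1 : ∀ x y y', u x = 0 → F x y = F x y' := by
    intro x y y' hx
    exact L.swap.flat (u := w) (w := u) (fun y x => by
      show L.P x y = w y * u x
      rw [hP, mul_comm]) (x₀ := y₀) (y₀ := x₀) h0 ht' hx y y'
  have h2 : ∀ x x' y, w y = 0 → F x y = F x' y := fun x x' y hy =>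
    L.flat hP h0 ht hy x x'
  refine On.bind (f := fun x _ => decide (u x = 0)) (c := 1) (b := 1)
    (On.of (Prot.alice (fun x => decide (u x = 0))) _) fun v => ?_
  cases v
  · refine ⟨fun _ y => F x₀ y, Prot.bob _, fun x y hxy => ?_⟩
    obtain ⟨h3, h4⟩ := hxy
    have h5 : u x ≠ 0 := by simpa using h4
    rcases mul_eq_zero.1 h3 with h6 | h6
    · exact absurd h6 h5
    · exact h2 _ _ _ h6
  · refine ⟨fun x _ => F x y₀, Prot.alice _, fun x y hxy => ?_⟩
    obtain ⟨h3, h4⟩ := hxy
    have h5 : u x = 0 := by simpa using h4
    exact h1 _ _ _ h5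

end Pool.Agent.V7H64.LR
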