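import Pool.Agent.V7H64.LR.Add

/-!
# Evaluation of a gate
-/

set_option autoImplicit false

namespace Pool.Agent.V7H64.LR

open Pool.Agent.TH744.LR Module Function

/-- the bound for the partners of a function of dimension `a` -/
def part (R a : ℕ) : ℕ := min (R / a) (Nat.sqrt R)

theorem part_anti {R a a' : ℕ} (ha : 1 ≤ a) (h : a ≤ a') : part R a' ≤ part R a := by
  unfold part
  exact min_le_min (Nat.div_le_div_left h ha) le_rfl

theorem le_part {R a b : ℕ} (ha : 1 ≤ a) (h : b * a ≤ R) (hba : b ≤ a) : b ≤ part R a := by
  unfold part
  refine le_min ((Nat.le_div_iff_mul_le ha).2 h) (Nat.le_sqrt.2 ?_)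
  nlinarith

namespace Parts

variable {n : ℕ} {X Y : Type} {S : Parts n X Y}

theorem eval [∀ j, Finite (S.X' j)] [∀ j, Finite (S.Y' j)] {R : ℕ} (hR : 2 ≤ R) {T : ℕ → ℕ}
    (hT : Monotone T)
    (cost : ∀ j, S.NC j → 4 * mu (S.f j) ≤ 3 * R → Prot (S.f j) (T (mu (S.f j)))) :
    ∀ (N : ℕ) (K : Finset (Fin n)), n - K.card ≤ N → ∀ (g : (Fin n → Bool) → Bool),
    (∀ j ∈ K, ¬ S.Sens g j) →
    (∀ j l, j ≠ l → S.NC j → S.NC l → S.Mixed g j l → mu (S.f l) * mu (S.f j) ≤ R) →
    ∀ (a₀ E : ℕ), (∀ a, 1 ≤ a → a ≤ a₀ → 4 * a ≤ 3 * R →
      T a + (n - 1 - K.card) * T (part R a) ≤ E) →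
    (∀ j, S.NC j → S.Sens g j → mu (S.f j) ≤ a₀) →
    On (fun x y => ∀ j, S.NC j → 3 * R < 4 * mu (S.f j) → dv g (S.val x y) j = 0) (S.cmp g) E := by
  classical
  intro N
  induction N with
  | zero =>
    intro K hN g hK hmix a₀ E hE ha₀
    have hKc : K = Finset.univ := by
      apply Finset.eq_univ_of_card
      have := Finset.card_le_univ K
      rw [Fintype.card_fin] at this ⊢
      omega
    refine On.const E fun x y x' y' _ _ => ?_
    exact g_const (S := S) (fun l _ => hK l (by rw [hKc]; exact Finset.mem_univ _))
      (S.att_val x y) (S.att_val x' y')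
  | succ N ih =>
    intro K hN g hK hmix a₀ E hE ha₀
    by_cases hrel : ∃ j, S.NC j ∧ S.Sens g j
    swap
    · refine On.const E fun x y x' y' _ _ => ?_
      exact g_const (S := S) (fun l h1 h2 => hrel ⟨l, h1, h2⟩) (S.att_val x y) (S.att_val x' y')
    obtain ⟨z, hzmem, hzmax⟩ := Finset.exists_max_image
      (Finset.univ.filter fun j => S.NC j ∧ S.Sens g j) (fun j => mu (S.f j)) (by
        obtain ⟨j, hj⟩ := hrel
        exact ⟨j, Finset.mem_filter.2 ⟨Finset.mem_univ _, hj⟩⟩)
    obtain ⟨hzNC, hzS⟩ := (Finset.mem_filter.1 hzmem).2
    have hmax : ∀ j, S.NC j → S.Sens g j → mu (S.f j) ≤ mu (S.f z) := fun j h1 h2 =>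
      hzmax j (Finset.mem_filter.2 ⟨Finset.mem_univ _, h1, h2⟩)
    have hzK : z ∉ K := fun h => hK z h hzS
    have hz1 : 1 ≤ mu (S.f z) := S.mu_pos z hzNC
    have hza : mu (S.f z) ≤ a₀ := ha₀ z hzNC hzS
    by_cases hpart : ∃ s, s ≠ z ∧ S.NC s ∧ S.Mixed g z s
    · obtain ⟨s, hsz, hsNC, hsM⟩ := hpart
      have hsS : S.Sens g s := (hsM.symm hsz.symm).sens hzNC
      have hsK : s ∉ K := fun h => hK s h hsS
      have hs1 := hmix z s hsz.symm hzNC hsNC hsM
      have hs2 := hmax s hsNC hsS
      have hspart : mu (S.f s) ≤ part R (mu (S.f z)) := le_part hz1 hs1 hs2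
      have hscheap : 4 * mu (S.f s) ≤ 3 * R := by
        have h1 : mu (S.f s) * mu (S.f s) ≤ R := (Nat.mul_le_mul_left _ hs2).trans hs1
        have h2 := S.mu_pos s hsNC
        rcases Nat.lt_or_ge (mu (S.f s)) 2 with h3 | h3
        · omega
        · nlinarith
      have hcard : K.card + 2 ≤ n := by
        have h1 : (insert z (insert s K)).card ≤ Fintype.card (Fin n) := Finset.card_le_univ _
        rw [Finset.card_insert_of_notMem, Finset.card_insert_of_notMem hsK, Fintype.card_fin] at h1
        · omega
        · rw [Finset.mem_insert]
          push Not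
          exact ⟨hsz.symm, hzK⟩
      have hTs : T (mu (S.f s)) ≤ T (part R (mu (S.f z))) := hT hspart
      have hEge : T (part R (mu (S.f z))) ≤ E := by
        have h1 := hE 1 le_rfl (hz1.trans hza) (by omega)
        have h2 : T (part R (mu (S.f z))) ≤ T (part R 1) := hT (part_anti le_rfl hz1)
        have h3 : T (part R 1) ≤ (n - 1 - K.card) * T (part R 1) :=
          Nat.le_mul_of_pos_left _ (by omega)
        omega
      have hfs : On (fun x y => ∀ j, S.NC j → 3 * R < 4 * mu (S.f j) →
          dv g (S.val x y) j = 0) (fun x y => S.f s (S.p s x) (S.q s y))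
          (T (part R (mu (S.f z)))) :=
        On.of (((cost s hsNC hscheap).lift (S.p s) (S.q s)).mono hTs) _
      have hbind := On.bind (F := S.cmp g) (b := E - T (part R (mu (S.f z)))) hfs (fun v => ?_)
      · rwa [Nat.add_sub_cancel' hEge] at hbind
      · -- the restricted gate
        have hcomm : ∀ (r : Fin n → Bool) (j : Fin n) (w : Bool), j ≠ s →
            update (update r j w) s v = update (update r s v) j w := fun r j w hj =>
          update_comm hj w v r
        have hdv : ∀ (r : Fin n → Bool) (j : Fin n), j ≠ s →
            dv (fun r => g (update r s v)) r j = dv g (update r s v) j := by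
          intro r j hj
          show bv (g (update (update r j true) s v)) - bv (g (update (update r j false) s v)) =
            bv (g (update (update r s v) j true)) - bv (g (update (update r s v) j false))
          rw [hcomm r j true hj, hcomm r j false hj]
        have hdvs : ∀ r : Fin n → Bool, dv (fun r => g (update r s v)) r s = 0 := by
          intro r
          unfold dv
          simp only [update_idem, sub_self]
        have hSens : ∀ j, S.Sens (fun r => g (update r s v)) j → j ≠ s ∧ S.Sens g j := by
          rintro j ⟨r, hr, hne⟩
          have hjs : j ≠ s := by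
            rintro rfl
            exact hne (hdvs r)
          rw [hdv r j hjs] at hne
          exact ⟨hjs, _, hr.upd (hsNC v), hne⟩
        have h := ih (insert s K) (by rw [Finset.card_insert_of_notMem hsK]; omega)
          (fun r => g (update r s v)) ?_ ?_ (mu (S.f z)) (E - T (part R (mu (S.f z)))) ?_ ?_
        · have hvs : ∀ x y, S.f s (S.p s x) (S.q s y) = v →
              update (S.val x y) s v = S.val x y := by
            intro x y hxy
            conv_lhs => rw [← hxy]
            exact update_eq_self s (S.val x y)
          refine (h.mono (Ω' := fun x y => (∀ j, S.NC j → 3 * R < 4 * mu (S.f j) →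
            dv g (S.val x y) j = 0) ∧ S.f s (S.p s x) (S.q s y) = v) ?_ le_rfl).congr ?_
          · rintro x y ⟨h1, h2⟩ j hj hbig
            have hjs : j ≠ s := by
              rintro rfl
              omega
            rw [hdv _ j hjs, hvs x y h2]
            exact h1 j hj hbig
          · rintro x y ⟨_, h2⟩
            show g (update (S.val x y) s v) = g (S.val x y)
            rw [hvs x y h2]
        · intro j hj hS
          obtain ⟨h1, h2⟩ := hSens j hS
          rcases Finset.mem_insert.1 hj with h3 | h3
          · exact h1 h3
          · exact hK j h3 h2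
        · rintro j l hjl hj hl ⟨r, hr, hne⟩
          have hjs : j ≠ s := by
            rintro rfl
            exact hne (by rw [hdvs, hdvs])
          have hls : l ≠ s := by
            rintro rfl
            apply hne
            rw [hdv _ j hjs, hdv _ j hjs, update_idem, update_idem]
          refine hmix j l hjl hj hl ⟨update r s v, hr.upd (hsNC v), ?_⟩
          rw [hdv _ j hjs, hdv _ j hjs, hcomm _ _ _ hls, hcomm _ _ _ hls] at hne
          exact hne
        · intro a ha1 ha2 ha3
          have h1 := hE a ha1 (ha2.trans hza) ha3
          have h2 : T (part R (mu (S.f z))) ≤ T (part R a) := hT (part_anti ha1 ha2)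
          rw [Finset.card_insert_of_notMem hsK]
          have h3 : n - 1 - K.card = (n - 1 - (K.card + 1)) + 1 := by omega
          rw [h3, Nat.add_mul, Nat.one_mul] at h1
          omega
        · intro j h1 h2
          exact hmax j h1 (hSens j h2).2
    · -- no partner
      push Not at hpart
      have hconst : ∀ r r', S.Att r → S.Att r' → dv g r z = dv g r' z := fun r r' hr hr' =>
        dv_const (fun l hl hlNC => hpart l hl hlNC) hr hr'
      obtain ⟨r₀, hr₀, hne⟩ := hzS
      by_cases hcheap : 4 * mu (S.f z) ≤ 3 * R
      · have hTz : T (mu (S.f z)) ≤ E := by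
          have := hE (mu (S.f z)) hz1 hza hcheap
          omega
        have hPz := ((cost z hzNC hcheap).lift (S.p z) (S.q z)).mono hTz
        have hval : ∀ x y, update (S.val x y) z (S.val x y z) = S.val x y := fun x y =>
          update_eq_self z (S.val x y)
        by_cases hpos : g (update r₀ z true) = true
        · have h0 : g (update r₀ z false) = false := by
            by_contra hc
            rw [Bool.not_eq_false] at hc
            exact hne (by unfold dv; rw [hpos, hc, sub_self])
          have hd1 : dv g r₀ z = 1 := by
            unfold dv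
            rw [hpos, h0]
            simp [bv]
          refine ⟨_, hPz, fun x y _ => ?_⟩
          have h1 := hconst _ _ (S.att_val x y) hr₀
          rw [hd1] at h1
          unfold dv at h1
          show S.val x y z = g (S.val x y)
          cases ht : g (update (S.val x y) z true) <;> cases hf : g (update (S.val x y) z false) <;>
            rw [ht, hf] at h1 <;> simp [bv] at h1
          · norm_num at h1
          · have h2 := hval x y
            cases hv : S.val x y z
            · rw [hv] at h2
              rw [← h2, hf]
            · rw [hv] at h2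
              rw [← h2, ht]
        · have hpos' : g (update r₀ z true) = false := by simpa using hpos
          have h0 : g (update r₀ z false) = true := by
            by_contra hc
            rw [Bool.not_eq_true] at hc
            exact hne (by unfold dv; rw [hpos', hc, sub_self])
          have hd1 : dv g r₀ z = -1 := by
            unfold dv
            rw [hpos', h0]
            simp [bv]
          have hPz' : Prot (fun x y => !(S.f z (S.p z x) (S.q z y))) E := by
            have h1 := Prot.bind hPz (F := fun v _ _ => !v) (b := 0)
              (fun v => Prot.const (!v))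
            exact h1
          refine ⟨_, hPz', fun x y _ => ?_⟩
          have h1 := hconst _ _ (S.att_val x y) hr₀
          rw [hd1] at h1
          unfold dv at h1
          show (!(S.val x y z)) = g (S.val x y)
          cases ht : g (update (S.val x y) z true) <;> cases hf : g (update (S.val x y) z false) <;>
            rw [ht, hf] at h1 <;> simp [bv] at h1
          · have h2 := hval x y
            cases hv : S.val x y z
            · rw [hv] at h2
              rw [← h2, hf]
              rfl
            · rw [hv] at h2
              rw [← h2, ht]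
              rfl
          · norm_num at h1
      · refine On.const E fun x y x' y' hxy _ => ?_
        exfalso
        apply hne
        rw [hconst r₀ _ hr₀ (S.att_val x y)]
        exact hxy z hzNC (by omega)

end Parts

end Pool.Agent.V7H64.LR
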