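import Pool.Agent.V7H64.LR.Lens

/-!
# Gates
-/

set_option autoImplicit false

namespace Pool.Agent.V7H64.LR

open Pool.Agent.TH744.LR Module Function

theorem bool_third {a b c : Bool} (h1 : a ≠ b) (h2 : c ≠ b) : c = a := by
  cases a <;> cases b <;> cases c <;> simp_all

/-- `X` and `Y` are decomposed into independent parts, with a function on each part -/
structure Parts (n : ℕ) (X Y : Type) where
  /-- the parts of `x` -/
  X' : Fin n → Type
  /-- the parts of `y` -/
  Y' : Fin n → Type
  /-- the `j`-th part of `x` -/
  p : ∀ j, X → X' j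
  /-- the `j`-th part of `y` -/
  q : ∀ j, Y → Y' j
  hp : ∀ a : ∀ j, X' j, ∃ x, ∀ j, p j x = a j
  hq : ∀ b : ∀ j, Y' j, ∃ y, ∀ j, q j y = b j
  /-- the inner functions -/
  f : ∀ j, X' j → Y' j → Bool

namespace Parts

variable {n : ℕ} {X Y : Type} (S : Parts n X Y)

/-- the transposed parts -/
def swap : Parts n Y X where
  X' := S.Y'
  Y' := S.X'
  p := S.q
  q := S.p
  hp := S.hq
  hq := S.hp
  f := fun j => tr (S.f j)

/-- the values of the inner functions -/
def val (x : X) (y : Y) : Fin n → Bool := fun j => S.f j (S.p j x) (S.q j y)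

/-- the composed function -/
def cmp (g : (Fin n → Bool) → Bool) : X → Y → Bool := fun x y => g (S.val x y)

/-- replace the `j`-th part of `x` -/
noncomputable def ix (j : Fin n) (x : X) (a : S.X' j) : X :=
  (S.hp (update (fun l => S.p l x) j a)).choose

theorem p_ix (j : Fin n) (x : X) (a : S.X' j) (l : Fin n) :
    S.p l (S.ix j x a) = update (fun l => S.p l x) j a l :=
  (S.hp (update (fun l => S.p l x) j a)).choose_spec l

theorem p_ix_same (j : Fin n) (x : X) (a : S.X' j) : S.p j (S.ix j x a) = a := by
  rw [p_ix, update_self]

theorem p_ix_ne {j l : Fin n} (h : l ≠ j) (x : X) (a : S.X' j) : S.p l (S.ix j x a) = S.p l x := by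
  rw [p_ix, update_of_ne h]

/-- replace the `j`-th part of `y` -/
noncomputable def iy (j : Fin n) (y : Y) (b : S.Y' j) : Y := S.swap.ix j y b

theorem q_iy_same (j : Fin n) (y : Y) (b : S.Y' j) : S.q j (S.iy j y b) = b :=
  S.swap.p_ix_same j y b

theorem q_iy_ne {j l : Fin n} (h : l ≠ j) (y : Y) (b : S.Y' j) : S.q l (S.iy j y b) = S.q l y :=
  S.swap.p_ix_ne h y b

theorem val_ix_iy (j : Fin n) (x : X) (y : Y) (a : S.X' j) (b : S.Y' j) :
    S.val (S.ix j x a) (S.iy j y b) = update (S.val x y) j (S.f j a b) := by
  funext l
  by_cases h : l = j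
  · subst h
    rw [update_self]
    unfold val
    rw [p_ix_same, q_iy_same]
  · rw [update_of_ne h]
    unfold val
    rw [S.p_ix_ne h, S.q_iy_ne h]

theorem val_ix_upd (j : Fin n) (x : X) (y : Y) (a : S.X' j) (v : Bool) :
    update (S.val (S.ix j x a) y) j v = update (S.val x y) j v := by
  funext l
  by_cases h : l = j
  · subst h
    rw [update_self, update_self]
  · rw [update_of_ne h, update_of_ne h]
    unfold val
    rw [S.p_ix_ne h]

theorem val_iy_upd (j : Fin n) (x : X) (y : Y) (b : S.Y' j) (v : Bool) :
    update (S.val x (S.iy j y b)) j v = update (S.val x y) j v := by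
  funext l
  by_cases h : l = j
  · subst h
    rw [update_self, update_self]
  · rw [update_of_ne h, update_of_ne h]
    unfold val
    rw [S.q_iy_ne h]

theorem val_iy (j : Fin n) (x : X) (y : Y) (b : S.Y' j) :
    S.val x (S.iy j y b) = update (S.val x y) j (S.f j (S.p j x) b) := by
  funext l
  by_cases h : l = j
  · subst h
    rw [update_self]
    unfold val
    rw [q_iy_same]
  · rw [update_of_ne h]
    unfold val
    rw [S.q_iy_ne h]

/-- the lens of the `j`-th inner function -/
noncomputable def lens (g : (Fin n → Bool) → Bool) (j : Fin n) : Lens (S.cmp g) (S.f j) where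
  p := S.p j
  q := S.q j
  i := S.ix j
  k := S.iy j
  H := fun x y v => g (update (S.val x y) j v)
  fac := fun x y => by
    show g (S.val x y) = g (update (S.val x y) j (S.f j (S.p j x) (S.q j y)))
    congr 1
    exact (update_eq_self j (S.val x y)).symm
  pi := S.p_ix_same j
  qk := S.q_iy_same j
  Hi := fun x a y v => by rw [val_ix_upd]
  Hk := fun x y b v => by rw [val_iy_upd]

/-- the derivative of `g` in the direction `j` -/
noncomputable def _root_.Pool.Agent.V7H64.LR.dv {n : ℕ} (g : (Fin n → Bool) → Bool)
    (r : Fin n → Bool) (j : Fin n) : ℝ :=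
  bv (g (update r j true)) - bv (g (update r j false))

theorem lens_P (g : (Fin n → Bool) → Bool) (j : Fin n) (x : X) (y : Y) :
    (S.lens g j).P x y = dv g (S.val x y) j := rfl

/-- the value `v` of the `j`-th inner function is attained -/
def At (j : Fin n) (v : Bool) : Prop := ∃ a b, S.f j a b = v

/-- an attained vector of values -/
def Att (r : Fin n → Bool) : Prop := ∀ j, S.At j (r j)

/-- the `j`-th inner function is not constant -/
def NC (j : Fin n) : Prop := ∀ v, S.At j v

theorem Att.exists_val {S : Parts n X Y} {r : Fin n → Bool} (h : S.Att r) :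
    ∃ x y, S.val x y = r := by
  choose a b hab using h
  obtain ⟨x, hx⟩ := S.hp a
  obtain ⟨y, hy⟩ := S.hq b
  refine ⟨x, y, ?_⟩
  funext j
  unfold val
  rw [hx, hy, hab]

theorem att_val (x : X) (y : Y) : S.Att (S.val x y) := fun j => ⟨_, _, rfl⟩

theorem Att.upd {S : Parts n X Y} {r : Fin n → Bool} (h : S.Att r) {j : Fin n} {v : Bool}
    (hj : S.At j v) : S.Att (update r j v) := by
  intro l
  by_cases hl : l = j
  · subst hl
    rw [update_self]
    exact hj
  · rw [update_of_ne hl]
    exact h l

/-- `g` depends on the `j`-th inner function -/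
def Sens (g : (Fin n → Bool) → Bool) (j : Fin n) : Prop := ∃ r, S.Att r ∧ dv g r j ≠ 0

/-- the derivative of `g` in the direction `j` depends on the `l`-th inner function -/
def Mixed (g : (Fin n → Bool) → Bool) (j l : Fin n) : Prop :=
  ∃ r, S.Att r ∧ dv g (update r l true) j ≠ dv g (update r l false) j

theorem dv_comm (g : (Fin n → Bool) → Bool) (r : Fin n → Bool) {j l : Fin n} (h : j ≠ l) :
    dv g (update r l true) j - dv g (update r l false) j =
      dv g (update r j true) l - dv g (update r j false) l := by
  unfold dv
  rw [update_comm h.symm true true r, update_comm h.symm true false r,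
    update_comm h.symm false true r, update_comm h.symm false false r]
  ring

variable {S}

theorem Mixed.symm {g : (Fin n → Bool) → Bool} {j l : Fin n} (h : j ≠ l) (hm : S.Mixed g j l) :
    S.Mixed g l j := by
  obtain ⟨r, hr, hne⟩ := hm
  refine ⟨r, hr, fun he => hne ?_⟩
  have := dv_comm g r h
  rw [he, sub_self] at this
  exact sub_eq_zero.1 this

theorem Mixed.sens {g : (Fin n → Bool) → Bool} {j l : Fin n} (hm : S.Mixed g j l)
    (hl : S.NC l) : S.Sens g j := by
  obtain ⟨r, hr, hne⟩ := hm
  by_cases h : dv g (update r l true) j = 0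
  · refine ⟨update r l false, hr.upd (hl false), fun h' => hne ?_⟩
    rw [h, h']
  · exact ⟨_, hr.upd (hl true), h⟩

theorem dv_upd_self (g : (Fin n → Bool) → Bool) (r : Fin n → Bool) (j : Fin n) (v : Bool) :
    dv g (update r j v) j = dv g r j := by
  unfold dv
  rw [update_idem, update_idem]

/-- a derivative without mixed terms is constant -/
theorem dv_const {g : (Fin n → Bool) → Bool} {j : Fin n}
    (h : ∀ l, l ≠ j → S.NC l → ¬ S.Mixed g j l) {r r' : Fin n → Bool} (hr : S.Att r)
    (hr' : S.Att r') : dv g r j = dv g r' j := by
  classical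
  have key : ∀ A : Finset (Fin n), S.Att (fun l => if l ∈ A then r' l else r l) ∧
      dv g (fun l => if l ∈ A then r' l else r l) j = dv g r j := by
    intro A
    induction A using Finset.induction_on with
    | empty => simpa using hr
    | insert m A hm ih =>
      obtain ⟨h1, h2⟩ := ih
      set s : Fin n → Bool := fun l => if l ∈ A then r' l else r l with hs
      have hsm : s m = r m := by rw [hs]; simp [hm]
      have e : (fun l => if l ∈ insert m A then r' l else r l) = update s m (r' m) := by
        funext l
        by_cases hl : l = m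
        · subst hl
          simp
        · rw [update_of_ne hl]
          simp [hs, hl]
      rw [e]
      refine ⟨h1.upd (hr' m), ?_⟩
      rw [← h2]
      by_cases hv : r' m = r m
      · rw [hv, ← hsm, update_eq_self]
      by_cases hmj : m = j
      · subst hmj
        exact dv_upd_self g s m _
      have hNC : S.NC m := by
        intro v
        by_cases hv' : v = r m
        · rw [hv']
          exact hr m
        · have : v = r' m := bool_third hv hv'
          rw [this]
          exact hr' m
      have hn := h m hmj hNC
      unfold Mixed at hn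
      push Not at hn
      have h3 := hn s h1
      have h4 : ∀ v, dv g (update s m v) j = dv g (update s m false) j := by
        intro v
        cases v
        · rfl
        · exact h3
      have h5 : update s m (r m) = s := by rw [← hsm, update_eq_self]
      have h6 := h4 (r m)
      rw [h5] at h6
      exact (h4 _).trans h6.symm
  have := (key Finset.univ).2
  simp only [Finset.mem_univ, if_true] at this
  exact this.symm

/-- a gate which depends on no inner function is constant -/
theorem g_const {g : (Fin n → Bool) → Bool} (h : ∀ l, S.NC l → ¬ S.Sens g l)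
    {r r' : Fin n → Bool} (hr : S.Att r) (hr' : S.Att r') : g r = g r' := by
  classical
  have key : ∀ A : Finset (Fin n), S.Att (fun l => if l ∈ A then r' l else r l) ∧
      g (fun l => if l ∈ A then r' l else r l) = g r := by
    intro A
    induction A using Finset.induction_on with
    | empty => simpa using hr
    | insert m A hm ih =>
      obtain ⟨h1, h2⟩ := ih
      set s : Fin n → Bool := fun l => if l ∈ A then r' l else r l with hs
      have hsm : s m = r m := by rw [hs]; simp [hm]
      have e : (fun l => if l ∈ insert m A then r' l else r l) = update s m (r' m) := by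
        funext l
        by_cases hl : l = m
        · subst hl
          simp
        · rw [update_of_ne hl]
          simp [hs, hl]
      rw [e]
      refine ⟨h1.upd (hr' m), ?_⟩
      rw [← h2]
      by_cases hv : r' m = r m
      · rw [hv, ← hsm, update_eq_self]
      have hNC : S.NC m := by
        intro v
        by_cases hv' : v = r m
        · rw [hv']
          exact hr m
        · have : v = r' m := bool_third hv hv'
          rw [this]
          exact hr' m
      have hn := h m hNC
      unfold Sens at hn
      push Not at hn
      have h3 := hn s h1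
      have h4 : ∀ v, g (update s m v) = g (update s m false) := by
        intro v
        cases v
        · rfl
        · exact bv_inj (by unfold dv at h3; linarith)
      have h5 : update s m (r m) = s := by rw [← hsm, update_eq_self]
      have h6 := h4 (r m)
      rw [h5] at h6
      exact (h4 _).trans h6.symm
  have := (key Finset.univ).2
  simp only [Finset.mem_univ, if_true] at this
  exact this.symm

theorem mu_pos (j : Fin n) [Finite (S.X' j)] [Finite (S.Y' j)] (h : S.NC j) :
    1 ≤ mu (S.f j) := by
  by_contra hc
  have h0 : mu (S.f j) = 0 := by omega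
  unfold mu at h0
  have h1 : tau (S.f j) = 0 := by omega
  have h2 : tau (tr (S.f j)) = 0 := by omega
  unfold tau at h1 h2
  rw [Submodule.finrank_eq_zero] at h1 h2
  obtain ⟨a, b, hab⟩ := h true
  obtain ⟨a', b', hab'⟩ := h false
  have h3 : S.f j a b = S.f j a' b := by
    have h4 := rd_mem (S.f j) a a'
    rw [h1, Submodule.mem_bot] at h4
    exact bv_inj (sub_eq_zero.1 (congrFun h4 b))
  have h4 : S.f j a' b = S.f j a' b' := by
    have h5 := rd_mem (tr (S.f j)) b b'
    rw [h2, Submodule.mem_bot] at h5
    exact bv_inj (sub_eq_zero.1 (congrFun h5 a'))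
  rw [h3, h4, hab'] at hab
  exact Bool.noConfusion hab

theorem mixed_tau {g : (Fin n → Bool) → Bool} {j l : Fin n} [Finite Y]
    (hm : S.Mixed g j l) : tau (S.f l) ≤ (S.lens g j).rk := by
  obtain ⟨r, hr, hne⟩ := hm
  obtain ⟨x₀, y₀, rfl⟩ := hr.exists_val
  set α : ℝ := dv g (update (S.val x₀ y₀) l true) j - dv g (update (S.val x₀ y₀) l false) j with hα
  have hα0 : α ≠ 0 := sub_ne_zero.2 hne
  let ρ : (Y → ℝ) →ₗ[ℝ] (S.Y' l → ℝ) :=
    { toFun := fun u b => u (S.iy l y₀ b)
      map_add' := fun _ _ => rfl
      map_smul' := fun _ _ => rfl }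
  have hle : DS (S.f l) ≤ (S.lens g j).US.map ρ := by
    unfold DS
    rw [Submodule.span_le]
    rintro _ ⟨a, a', rfl⟩
    have h1 : ∀ a b, (S.lens g j).P (S.ix l x₀ a) (S.iy l y₀ b) =
        dv g (update (S.val x₀ y₀) l false) j + α * bv (S.f l a b) := by
      intro a b
      rw [S.lens_P, S.val_ix_iy]
      cases S.f l a b
      · simp [bv]
      · simp only [bv, if_true, mul_one, hα]
        ring
    refine ⟨α⁻¹ • ((fun y => (S.lens g j).P (S.ix l x₀ a) y) -
      fun y => (S.lens g j).P (S.ix l x₀ a') y), ?_, ?_⟩
    · exact Submodule.smul_mem _ _ (Submodule.sub_mem _ (Submodule.subset_span ⟨_, rfl⟩)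
        (Submodule.subset_span ⟨_, rfl⟩))
    · funext b
      show α⁻¹ * ((S.lens g j).P (S.ix l x₀ a) (S.iy l y₀ b) -
        (S.lens g j).P (S.ix l x₀ a') (S.iy l y₀ b)) = rd (S.f l) a a' b
      rw [h1, h1]
      unfold rd
      field_simp
      ring
  calc tau (S.f l) ≤ finrank ℝ ((S.lens g j).US.map ρ) := by
        have : FiniteDimensional ℝ ((S.lens g j).US.map ρ) := inferInstance
        exact Submodule.finrank_mono hle
    _ ≤ (S.lens g j).rk := Submodule.finrank_map_le ρ _

end Parts

end Pool.Agent.V7H64.LR
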