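import Pool.Agent.V7H64.LR.Rk

/-!
# A function `F(x, y) = H(x, y, z(p x, q y))` whose dependence on the `z`-part of the input is only
through the value of `z`
-/

set_option autoImplicit false

namespace Pool.Agent.V7H64.LR

open Pool.Agent.TH744.LR Module

/-- `F(x, y) = H(x, y, z(p x, q y))`, where the `z`-parts `p x`, `q y` of the inputs can be changed
arbitrarily without changing `H(x, y, ·)` -/
structure Lens {X Y Z W : Type} (F : X → Y → Bool) (z : Z → W → Bool) where
  /-- the part of `x` -/
  p : X → Z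
  /-- the part of `y` -/
  q : Y → W
  /-- replacing the part of `x` -/
  i : X → Z → X
  /-- replacing the part of `y` -/
  k : Y → W → Y
  /-- the outer function -/
  H : X → Y → Bool → Bool
  fac : ∀ x y, F x y = H x y (z (p x) (q y))
  pi : ∀ x a, p (i x a) = a
  qk : ∀ y b, q (k y b) = b
  Hi : ∀ x a y v, H (i x a) y v = H x y v
  Hk : ∀ x y b v, H x (k y b) v = H x y v

namespace Lens

variable {X Y Z W Z' W' : Type} {F : X → Y → Bool} {z : Z → W → Bool} {z' : Z' → W' → Bool}

/-- the transposed lens -/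
def swap (L : Lens F z) : Lens (tr F) (tr z) where
  p := L.q
  q := L.p
  i := L.k
  k := L.i
  H := fun y x v => L.H x y v
  fac := fun y x => L.fac x y
  pi := L.qk
  qk := L.pi
  Hi := fun y b x v => L.Hk x y b v
  Hk := fun y x a v => L.Hi x a y v

/-- the identity -/
def refl (F : X → Y → Bool) : Lens F F where
  p := id
  q := id
  i := fun _ a => a
  k := fun _ b => b
  H := fun _ _ v => v
  fac := fun _ _ => rfl
  pi := fun _ _ => rfl
  qk := fun _ _ => rfl
  Hi := fun _ _ _ _ => rfl
  Hk := fun _ _ _ _ => rfl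

/-- composition -/
def comp (L : Lens F z) (M : Lens z z') : Lens F z' where
  p := fun x => M.p (L.p x)
  q := fun y => M.q (L.q y)
  i := fun x a => L.i x (M.i (L.p x) a)
  k := fun y b => L.k y (M.k (L.q y) b)
  H := fun x y v => L.H x y (M.H (L.p x) (L.q y) v)
  fac := fun x y => by rw [L.fac, M.fac]
  pi := fun x a => by rw [L.pi, M.pi]
  qk := fun y b => by rw [L.qk, M.qk]
  Hi := fun x a y v => by rw [L.Hi, L.pi, M.Hi]
  Hk := fun x y b v => by rw [L.Hk, L.qk, M.Hk]

/-- the dependence on the value of `z` -/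
noncomputable def P (L : Lens F z) (x : X) (y : Y) : ℝ := bv (L.H x y true) - bv (L.H x y false)

theorem bvH (L : Lens F z) (x : X) (y : Y) (v : Bool) :
    bv (L.H x y v) = bv (L.H x y false) + L.P x y * bv v := by
  unfold P
  cases v <;> simp [bv]

theorem P_i (L : Lens F z) (x : X) (a : Z) (y : Y) : L.P (L.i x a) y = L.P x y := by
  unfold P
  rw [L.Hi, L.Hi]

theorem P_k (L : Lens F z) (x : X) (y : Y) (b : W) : L.P x (L.k y b) = L.P x y := by
  unfold P
  rw [L.Hk, L.Hk]

theorem P_cases (L : Lens F z) (x : X) (y : Y) : L.P x y = 0 ∨ L.P x y = 1 ∨ L.P x y = -1 := by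
  unfold P
  cases L.H x y true <;> cases L.H x y false <;> simp [bv]

/-- the space of the rows of `P` -/
def US (L : Lens F z) : Submodule ℝ (Y → ℝ) :=
  Submodule.span ℝ (Set.range fun x : X => fun y => L.P x y)

theorem US_k (L : Lens F z) {u : Y → ℝ} (hu : u ∈ L.US) (y : Y) (b : W) : u (L.k y b) = u y := by
  unfold US at hu
  induction hu using Submodule.span_induction with
  | mem u h =>
    obtain ⟨x, rfl⟩ := h
    exact L.P_k x y b
  | zero => rfl
  | add u v _ _ hu hv =>
    show u _ + v _ = u y + v y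
    rw [hu, hv]
  | smul c u _ hu =>
    show c * u _ = c * u y
    rw [hu]

theorem row_i (L : Lens F z) (x : X) (a a' : Z) (y : Y) :
    rd F (L.i x a) (L.i x a') y = L.P x y * rd z a a' (L.q y) := by
  unfold rd
  rw [L.fac, L.fac, L.pi, L.pi, L.Hi, L.Hi, L.bvH x y (z a (L.q y)), L.bvH x y (z a' (L.q y))]
  ring

theorem mul_mem (L : Lens F z) {u : Y → ℝ} (hu : u ∈ L.US) {d : W → ℝ} (hd : d ∈ DS z) :
    (fun y => u y * d (L.q y)) ∈ DS F := by
  unfold US at hu
  induction hu using Submodule.span_induction with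
  | mem u h =>
    obtain ⟨x, rfl⟩ := h
    unfold DS at hd
    induction hd using Submodule.span_induction with
    | mem d h =>
      obtain ⟨a, a', rfl⟩ := h
      have e : (fun y => L.P x y * rd z a a' (L.q y)) = rd F (L.i x a) (L.i x a') := by
        funext y
        exact (L.row_i x a a' y).symm
      show (fun y => L.P x y * rd z a a' (L.q y)) ∈ DS F
      rw [e]
      exact rd_mem F _ _
    | zero =>
      have : (fun y => (fun y => L.P x y) y * (0 : W → ℝ) (L.q y)) = 0 := by
        funext y
        simp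
      rw [this]
      exact Submodule.zero_mem _
    | add d e _ _ hd he =>
      have : (fun y => (fun y => L.P x y) y * (d + e) (L.q y)) =
          (fun y => (fun y => L.P x y) y * d (L.q y)) + fun y => (fun y => L.P x y) y * e (L.q y) := by
        funext y
        simp [mul_add]
      rw [this]
      exact Submodule.add_mem _ hd he
    | smul c d _ hd =>
      have : (fun y => (fun y => L.P x y) y * (c • d) (L.q y)) =
          c • fun y => (fun y => L.P x y) y * d (L.q y) := by
        funext y
        simp only [Pi.smul_apply, smul_eq_mul]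
        ring
      rw [this]
      exact Submodule.smul_mem _ _ hd
  | zero =>
    have : (fun y => (0 : Y → ℝ) y * d (L.q y)) = 0 := by
      funext y
      simp
    rw [this]
    exact Submodule.zero_mem _
  | add u v _ _ hu hv =>
    have : (fun y => (u + v) y * d (L.q y)) =
        (fun y => u y * d (L.q y)) + fun y => v y * d (L.q y) := by
      funext y
      simp [add_mul]
    rw [this]
    exact Submodule.add_mem _ hu hv
  | smul c u _ hu =>
    have : (fun y => (c • u) y * d (L.q y)) = c • fun y => u y * d (L.q y) := by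
      funext y
      simp only [Pi.smul_apply, smul_eq_mul]
      ring
    rw [this]
    exact Submodule.smul_mem _ _ hu

/-- the rank of the matrix `P` -/
noncomputable def rk (L : Lens F z) : ℕ := finrank ℝ L.US

theorem rk_tau [Finite Y] [Finite W] (L : Lens F z) : L.rk * tau z ≤ tau F :=
  prod_dim L.US (DS z) (DS F) L.q L.k L.qk (fun _ hu y b => L.US_k hu y b)
    (fun _ hu _ hd => L.mul_mem hu hd)

theorem rk_swap [Finite X] [Finite Y] (L : Lens F z) : L.swap.rk = L.rk := by
  have := Fintype.ofFinite X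
  have := Fintype.ofFinite Y
  have h1 : L.rk = (Matrix.of (fun x y => L.P x y)).rank := by
    rw [Matrix.rank_eq_finrank_span_row]
    rfl
  have h2 : L.swap.rk = (Matrix.of (fun x y => L.P x y)).transpose.rank := by
    rw [Matrix.rank_eq_finrank_span_row]
    rfl
  rw [h1, h2, Matrix.rank_transpose]

theorem rk_mu [Finite X] [Finite Y] [Finite Z] [Finite W] (L : Lens F z) :
    L.rk * mu z ≤ mu F := by
  have h1 := L.rk_tau
  have h2 := L.swap.rk_tau
  rw [L.rk_swap] at h2
  unfold mu
  rcases max_choice (tau z) (tau (tr z)) with h | h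
  · rw [h]
    exact h1.trans (le_max_left _ _)
  · rw [h]
    exact h2.trans (le_max_right _ _)

theorem rk_pos [Finite Y] (L : Lens F z) {x : X} {y : Y} (h : L.P x y ≠ 0) : 1 ≤ L.rk := by
  by_contra hc
  have h0 : L.rk = 0 := by omega
  unfold rk at h0
  rw [Submodule.finrank_eq_zero] at h0
  have h1 : (fun y => L.P x y) ∈ L.US := Submodule.subset_span ⟨x, rfl⟩
  rw [h0, Submodule.mem_bot] at h1
  exact h (congrFun h1 y)

theorem tau_le [Finite Y] [Finite W] (L : Lens F z) {x : X} {y : Y}
    (h : L.P x y ≠ 0) : tau z ≤ tau F := by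
  have := L.rk_tau
  have h1 := L.rk_pos h
  nlinarith

/-- a large inner function: `P` has rank one -/
theorem rank_one [Finite X] [Finite Y] [Finite Z] [Finite W] (L : Lens F z)
    (h : mu F < 2 * mu z) :
    ∃ (u : X → ℝ) (w : Y → ℝ), ∀ x y, L.P x y = u x * w y := by
  have h1 := L.rk_mu
  have h2 : L.rk ≤ 1 := by
    by_contra hc
    have : 2 ≤ L.rk := by omega
    nlinarith
  unfold rk at h2
  rw [finrank_le_one_iff] at h2
  obtain ⟨v, hv⟩ := h2
  have h3 : ∀ x, ∃ c : ℝ, ∀ y, L.P x y = c * (v : Y → ℝ) y := by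
    intro x
    obtain ⟨c, hc⟩ := hv ⟨fun y => L.P x y, Submodule.subset_span ⟨x, rfl⟩⟩
    refine ⟨c, fun y => ?_⟩
    have := congrFun (congrArg Subtype.val hc) y
    exact this.symm
  choose u hu using h3
  exact ⟨u, v, hu⟩

/-- no increase of the dimension: a column which cuts off `z` is constant -/
theorem flat [Finite Y] [Finite W] (L : Lens F z) {u : X → ℝ} {w : Y → ℝ}
    (hP : ∀ x y, L.P x y = u x * w y) {x₀ : X} {y₀ : Y} (h0 : L.P x₀ y₀ ≠ 0)
    (ht : tau F = tau z) {y : Y} (hy : w y = 0) (x x' : X) : F x y = F x' y := by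
  have hu0 : u x₀ ≠ 0 := fun h => h0 (by rw [hP, h, zero_mul])
  have hw0 : w y₀ ≠ 0 := fun h => h0 (by rw [hP, h, mul_zero])
  have hwk : ∀ y b, w (L.k y b) = w y := by
    intro y b
    have := L.P_k x₀ y b
    rw [hP, hP] at this
    exact mul_left_cancel₀ hu0 this
  let A : (W → ℝ) →ₗ[ℝ] (Y → ℝ) :=
    { toFun := fun d y => w y * d (L.q y)
      map_add' := fun d e => by funext y; simp [mul_add]
      map_smul' := fun c d => by
        funext y
        simp only [Pi.smul_apply, smul_eq_mul, RingHom.id_apply]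
        ring }
  have hA : Function.Injective A := by
    intro d e hde
    funext b
    have h1 := congrFun hde (L.k y₀ b)
    have h2 : w (L.k y₀ b) * d (L.q (L.k y₀ b)) = w (L.k y₀ b) * e (L.q (L.k y₀ b)) := h1
    rw [hwk, L.qk] at h2
    exact mul_left_cancel₀ hw0 h2
  have hle : (DS z).map A ≤ DS F := by
    rintro _ ⟨d, hd, rfl⟩
    have h1 := L.mul_mem (Submodule.subset_span ⟨x₀, rfl⟩ : (fun y => L.P x₀ y) ∈ L.US) hd
    have h2 : A d = (u x₀)⁻¹ • fun y => (fun y => L.P x₀ y) y * d (L.q y) := by
      funext y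
      show w y * d (L.q y) = (u x₀)⁻¹ * (L.P x₀ y * d (L.q y))
      rw [hP]
      field_simp
    rw [h2]
    exact Submodule.smul_mem _ _ h1
  have hfr : finrank ℝ ((DS z).map A) = finrank ℝ (DS F) := by
    have : finrank ℝ ((DS z).map A) = finrank ℝ (DS z) :=
      LinearEquiv.finrank_eq (Submodule.equivMapOfInjective A hA (DS z)).symm
    rw [this]
    exact ht.symm
  have heq := Submodule.eq_of_le_of_finrank_eq hle hfr
  have h1 : rd F x x' ∈ (DS z).map A := by
    rw [heq]
    exact rd_mem F x x'
  obtain ⟨d, _, hd⟩ := h1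
  have h2 := congrFun hd y
  have h3 : w y * d (L.q y) = bv (F x y) - bv (F x' y) := h2
  rw [hy, zero_mul] at h3
  exact bv_inj (by linarith)

end Lens

end Pool.Agent.V7H64.LR
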