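import Pool.Agent.V7H64.LR.Chain

/-!
# The main induction
-/

set_option autoImplicit false

namespace Pool.Agent.V7H64.LR

open Pool.Agent.TH744.LR Module Function

/-- functions built from the functions in `B` by read-once composition with gates with at most `k`
inputs -/
inductive RO (k : ℕ) (B : ∀ (X Y : Type), (X → Y → Bool) → Prop) :
    ∀ (X Y : Type), (X → Y → Bool) → Prop
  | leaf (X Y : Type) (F : X → Y → Bool) (hX : Finite X) (hY : Finite Y) (h : B X Y F) :
      RO k B X Y F
  | node (X Y : Type) (n : ℕ) (hn : n ≤ k) (hX : Finite X) (hY : Finite Y) (S : Parts n X Y)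
      (g : (Fin n → Bool) → Bool) (h : ∀ j, RO k B (S.X' j) (S.Y' j) (S.f j)) :
      RO k B X Y (S.cmp g)

theorem RO.finX {k : ℕ} {B : ∀ (X Y : Type), (X → Y → Bool) → Prop} {X Y : Type}
    {F : X → Y → Bool} (h : RO k B X Y F) : Finite X := by
  cases h <;> assumption

theorem RO.finY {k : ℕ} {B : ∀ (X Y : Type), (X → Y → Bool) → Prop} {X Y : Type}
    {F : X → Y → Bool} (h : RO k B X Y F) : Finite Y := by
  cases h <;> assumption

/-- the number of bits needed to find the first cut in a chain -/
def ov (R : ℕ) : ℕ := 2 * Nat.clog 2 (4 * R + 2) + 2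

theorem exists_pt {X Y : Type} {F : X → Y → Bool} (h : 0 < mu F) : ∃ (_ : X) (_ : Y), True := by
  by_contra hc
  push Not at hc
  have h1 : IsEmpty X ∨ IsEmpty Y := by
    by_contra hne
    push Not at hne
    obtain ⟨x⟩ := hne.1
    obtain ⟨y⟩ := hne.2
    exact hc x y
  have h2 : ∀ {X Y : Type} (F : X → Y → Bool), IsEmpty X ∨ IsEmpty Y → tau F = 0 := by
    intro X Y F h
    have : DS F = ⊥ := by
      unfold DS
      rw [Submodule.span_eq_bot]
      rintro _ ⟨x, x', rfl⟩
      rcases h with h | h
      · exact (h.false x).elim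
      · funext y
        exact (h.false y).elim
    unfold tau
    rw [this, finrank_bot]
  have h3 := h2 F h1
  have h4 := h2 (tr F) h1.symm
  unfold mu at h
  omega

theorem comp_P {X Y Z W Z' W' : Type} {F : X → Y → Bool} {z : Z → W → Bool} {z' : Z' → W' → Bool}
    (L : Lens F z) (M : Lens z z') {x : X} {y : Y} (h : L.P x y ≠ 0) {a : Z} {b : W}
    (h' : M.P a b ≠ 0) : ∃ x' y', (L.comp M).P x' y' ≠ 0 := by
  refine ⟨L.i x a, L.k y b, ?_⟩
  have h1 : (L.comp M).P (L.i x a) (L.k y b) =
      bv (L.H x y (M.H a b true)) - bv (L.H x y (M.H a b false)) := by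
    show bv (L.H (L.i x a) (L.k y b) (M.H (L.p (L.i x a)) (L.q (L.k y b)) true)) -
      bv (L.H (L.i x a) (L.k y b) (M.H (L.p (L.i x a)) (L.q (L.k y b)) false)) = _
    rw [L.pi, L.qk, L.Hi, L.Hk, L.Hi, L.Hk]
  rw [h1, L.bvH x y (M.H a b true), L.bvH x y (M.H a b false)]
  have h2 : bv (L.H x y false) + L.P x y * bv (M.H a b true) -
      (bv (L.H x y false) + L.P x y * bv (M.H a b false)) = L.P x y * M.P a b := by
    unfold Lens.P
    ring
  rw [h2]
  exact mul_ne_zero h h'

/-- the number of super-nodes on the path to the critical node -/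
def Path {X Y : Type} (E : ℕ) (F : X → Y → Bool) : Prop :=
  ∃ (Z W : Type) (z : Z → W → Bool) (_ : Finite Z) (_ : Finite W) (L : Lens F z)
    (x : X) (y : Y) (N : ℕ), L.P x y ≠ 0 ∧ tau F = tau z ∧ tau (tr F) = tau (tr z) ∧
    N ≤ 2 * (tau z + tau (tr z)) ∧ Chn N E z

theorem Path.self {X Y : Type} [Finite X] [Finite Y] {E N : ℕ} {F : X → Y → Bool}
    (h : 0 < mu F) (hN : N ≤ 2 * (tau F + tau (tr F))) (hF : Chn N E F) : Path E F := by
  obtain ⟨x, y, _⟩ := exists_pt h
  refine ⟨X, Y, F, inferInstance, inferInstance, Lens.refl F, x, y, N, ?_, rfl, rfl, hN, hF⟩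
  show bv true - bv false ≠ 0
  simp [bv]

/-- the chain of a path -/
theorem Path.chn {X Y : Type} [Finite X] [Finite Y] {E : ℕ} (hE : 2 ≤ E) {F : X → Y → Bool}
    (h0 : 0 < mu F) (h : Path E F) :
    ∃ N, N ≤ 2 * (tau F + tau (tr F)) ∧ Chn (N + 1) E F := by
  obtain ⟨Z, W, z, _, _, L, x, y, N, hP, h1, h2, hN, hC⟩ := h
  have hmu : mu F = mu z := by
    unfold mu
    rw [h1, h2]
  obtain ⟨u, w, huw⟩ := L.rank_one (by omega)
  refine ⟨N, by rw [h1, h2]; exact hN, hC.step L huw ?_⟩
  exact (L.flatOn huw hP h1 h2).mono (fun _ _ h => h) hE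

theorem main {k : ℕ} {B : ∀ (X Y : Type), (X → Y → Bool) → Prop} {T : ℕ → ℕ} (hT : Monotone T)
    (H1 : ∀ R a, 6 ≤ R → 1 ≤ a → 4 * a ≤ 3 * R → T a + (k - 1) * T (part R a) + ov R ≤ T R)
    (H2 : ∀ R (X Y : Type) (F : X → Y → Bool), Finite X → Finite Y → B X Y F → 6 ≤ R →
      mu F ≤ R → 3 * R < 4 * mu F → ∃ c, Prot F c ∧ c + ov R ≤ T R)
    (H3 : ∀ R, R < 6 → R + 2 ≤ T R) :
    ∀ (m : ℕ) (X Y : Type) (F : X → Y → Bool), RO k B X Y F → mu F = m → Prot F (T m) := by
  intro m
  induction m using Nat.strong_induction_on with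
  | _ R ihR =>
    intro X Y F hF hm
    have hfX := hF.finX
    have hfY := hF.finY
    rcases Nat.lt_or_ge R 6 with hR | hR
    · exact (prot_mu F).mono (by rw [hm]; exact H3 R hR)
    have hov : T R - ov R + ov R = T R := by
      have := H1 R 1 hR le_rfl (by omega)
      omega
    have hT1 : 1 ≤ T 1 := by
      have := H3 1 (by norm_num)
      omega
    have hE2 : 2 ≤ T R - ov R := by
      have h1 := H1 R 1 hR le_rfl (by omega)
      have h3 := H3 1 (by norm_num)
      omega
    -- the path
    have path : ∀ (X Y : Type) (F : X → Y → Bool), RO k B X Y F → mu F ≤ R →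
        3 * R < 4 * mu F → Path (T R - ov R) F := by
      intro X Y F hF
      induction hF with
      | leaf X Y F hX hY h =>
        intro h1 h2
        obtain ⟨c, hc1, hc2⟩ := H2 R X Y F hX hY h hR h1 h2
        exact Path.self (by omega) (Nat.zero_le _) (Chn.base (hc1.mono (by omega)))
      | node X Y n hn hX hY S g h ih =>
        intro h1 h2
        have hfinX : ∀ j, Finite (S.X' j) := fun j => (h j).finX
        have hfinY : ∀ j, Finite (S.Y' j) := fun j => (h j).finY
        have hmu0 : 0 < mu (S.cmp g) := by omega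
        have hev : On (fun x y => ∀ j, S.NC j → 3 * R < 4 * mu (S.f j) →
            dv g (S.val x y) j = 0) (S.cmp g) (T R - ov R) := by
          refine Parts.eval (by omega) hT ?_ n ∅ (by simp) g (by simp) ?_ R _ ?_ ?_
          · intro j hj hc
            exact ihR (mu (S.f j)) (by omega) _ _ _ (h j) rfl
          · intro j l _ _ _ hM
            exact (Parts.mixed_mu hM).trans h1
          · intro a ha1 _ ha3
            have h3 := H1 R a hR ha1 ha3
            have h4 : (n - 1 - (∅ : Finset (Fin n)).card) * T (part R a) ≤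
                (k - 1) * T (part R a) := Nat.mul_le_mul_right _ (by simp; omega)
            omega
          · intro j hj hS
            obtain ⟨r, hr, hne⟩ := hS
            obtain ⟨x, y, rfl⟩ := hr.exists_val
            have h3 := (S.lens g j).rk_mu
            have h4 := (S.lens g j).rk_pos (x := x) (y := y) hne
            nlinarith
        by_cases hbig : ∃ j, S.NC j ∧ S.Sens g j ∧ 3 * R < 4 * mu (S.f j)
        · obtain ⟨j, hjNC, hjS, hjb⟩ := hbig
          obtain ⟨r, hr, hne⟩ := hjS
          obtain ⟨x, y, rfl⟩ := hr.exists_val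
          have hP : (S.lens g j).P x y ≠ 0 := hne
          have hjmu : mu (S.f j) ≤ mu (S.cmp g) := by
            have h3 := (S.lens g j).rk_mu
            have h4 := (S.lens g j).rk_pos hP
            nlinarith
          have hjP := ih j (hjmu.trans h1) hjb
          have ht1 : tau (S.f j) ≤ tau (S.cmp g) := (S.lens g j).tau_le hP
          have ht2 : tau (tr (S.f j)) ≤ tau (tr (S.cmp g)) :=
            (S.lens g j).swap.tau_le (x := y) (y := x) hP
          by_cases hflat : tau (S.cmp g) = tau (S.f j) ∧ tau (tr (S.cmp g)) = tau (tr (S.f j))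
          · obtain ⟨Z, W, z, hZ, hW, L, a, b, N, hLP, h3, h4, hN, hC⟩ := hjP
            obtain ⟨x', y', hxy⟩ := comp_P (S.lens g j) L hP hLP
            exact ⟨Z, W, z, hZ, hW, (S.lens g j).comp L, x', y', N, hxy,
              hflat.1.trans h3, hflat.2.trans h4, hN, hC⟩
          · obtain ⟨N, hN, hC⟩ := hjP.chn hE2 (by omega)
            obtain ⟨u, w, huw⟩ := (S.lens g j).rank_one (by omega)
            have hC2 : Chn (N + 1 + 1) (T R - ov R) (S.cmp g) := by
              refine hC.step (S.lens g j) huw (hev.mono ?_ le_rfl)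
              intro x y hxy l hl hlb
              by_cases hlj : l = j
              · subst hlj
                show (S.lens g l).P x y = 0
                rw [huw]
                exact hxy
              · by_contra hc
                have hlS : S.Sens g l := ⟨_, S.att_val x y, hc⟩
                exact Parts.large_unique hlj hlS ⟨_, hr, hne⟩ hR h1 hlb hjb
            refine Path.self hmu0 ?_ hC2
            have : tau (S.f j) + tau (tr (S.f j)) + 1 ≤ tau (S.cmp g) + tau (tr (S.cmp g)) := by
              by_contra hc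
              apply hflat
              constructor <;> omega
            omega
        · have hall : Prot (S.cmp g) (T R - ov R) := by
            refine hev.all fun x y j hj hjb => ?_
            by_contra hc
            exact hbig ⟨j, hj, ⟨_, S.att_val x y, hc⟩, hjb⟩
          exact Path.self hmu0 (Nat.zero_le _) (Chn.base hall)
    obtain ⟨N, hN, hC⟩ := (path X Y F hF (by omega) (by omega)).chn hE2 (by omega)
    have h1 := hC.prot
    refine h1.mono ?_
    have h2 : tau F ≤ R := by rw [← hm]; exact le_max_left _ _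
    have h3 : tau (tr F) ≤ R := by rw [← hm]; exact le_max_right _ _
    have h4 : Nat.clog 2 (N + 1 + 1) ≤ Nat.clog 2 (4 * R + 2) := Nat.clog_mono_right 2 (by omega)
    have h5 : ov R = 2 * Nat.clog 2 (4 * R + 2) + 2 := rfl
    omega

end Pool.Agent.V7H64.LR
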