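import Pool.Agent.V7H64.LR.Main

/-!
# The bound
-/

set_option autoImplicit false

namespace Pool.Agent.V7H64.LR

open Pool.Agent.TH744.LR Real

/-- the main convexity inequality -/
theorem convex_bound (c : ℕ) (κ L α β : ℝ) (hκ0 : 0 ≤ κ) (hκ : κ ≤ 2 ^ c) (hL : 1 ≤ L)
    (hα0 : 0 ≤ α) (hβ0 : 0 ≤ β) (hα : α + 2 / 5 ≤ L) (hαβ : β + α ≤ L) (hβ : 2 * β ≤ L) :
    α ^ (c + 2) + κ * β ^ (c + 2) ≤ L ^ (c + 2) - 1 / 5 * L := by
  set w := max α (L / 2) with hw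
  have hwα : α ≤ w := le_max_left _ _
  have hwL : L / 2 ≤ w := le_max_right _ _
  have hβw : β ≤ L - w := by
    rcases max_choice α (L / 2) with h | h
    · rw [hw, h]; linarith
    · rw [hw, h]; linarith
  have hw2 : 2 / 5 ≤ L - w := by
    rcases max_choice α (L / 2) with h | h
    · rw [hw, h]; linarith
    · rw [hw, h]; linarith
  have hLw : L - w ≤ L / 2 := by linarith
  have hw0 : 0 ≤ w := by linarith
  have hwleL : w ≤ L := by linarith
  have hLc : 0 ≤ L ^ (c + 1) := by positivity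
  have h1 : α ^ (c + 2) ≤ w * L ^ (c + 1) := by
    calc α ^ (c + 2) ≤ w ^ (c + 2) := pow_le_pow_left₀ hα0 hwα _
      _ = w * w ^ (c + 1) := by ring
      _ ≤ w * L ^ (c + 1) := mul_le_mul_of_nonneg_left (pow_le_pow_left₀ hw0 hwleL _) hw0
  have h2 : κ * β ^ (c + 2) ≤ (L - w) * L ^ (c + 1) / 2 := by
    calc κ * β ^ (c + 2) ≤ κ * (L - w) ^ (c + 2) :=
          mul_le_mul_of_nonneg_left (pow_le_pow_left₀ hβ0 hβw _) hκ0
      _ = (L - w) * (κ * (L - w) ^ (c + 1)) := by ring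
      _ ≤ (L - w) * (κ * (L / 2) ^ (c + 1)) := by
          refine mul_le_mul_of_nonneg_left ?_ (by linarith)
          exact mul_le_mul_of_nonneg_left (pow_le_pow_left₀ (by linarith) hLw _) hκ0
      _ ≤ (L - w) * (2 ^ c * (L / 2) ^ (c + 1)) := by
          refine mul_le_mul_of_nonneg_left ?_ (by linarith)
          exact mul_le_mul_of_nonneg_right hκ (by positivity)
      _ = (L - w) * L ^ (c + 1) / 2 := by
          rw [div_pow, pow_succ (2 : ℝ) c]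
          field_simp
  have h3 : L ≤ L ^ (c + 1) := le_self_pow₀ hL (by omega)
  have h4 : 2 / 5 * L ^ (c + 1) ≤ (L - w) * L ^ (c + 1) := mul_le_mul_of_nonneg_right hw2 hLc
  have h5 : L ^ (c + 2) = L * L ^ (c + 1) := by ring
  rw [h5]
  nlinarith

/-- the number of bits -/
noncomputable def bits (A c : ℕ) (R : ℕ) : ℕ := ⌊(A : ℝ) * (logb 2 (R : ℝ)) ^ c⌋₊ + 10

theorem log_nonneg' (R : ℕ) : 0 ≤ logb 2 (R : ℝ) := by
  rcases Nat.eq_zero_or_pos R with h | h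
  · subst h
    simp
  · exact logb_nonneg (by norm_num) (by exact_mod_cast h)

theorem log_mono {R R' : ℕ} (h : R ≤ R') : logb 2 (R : ℝ) ≤ logb 2 (R' : ℝ) := by
  rcases Nat.eq_zero_or_pos R with h0 | h0
  · subst h0
    simp only [Nat.cast_zero, logb_zero]
    exact log_nonneg' R'
  · exact logb_le_logb_of_le (by norm_num) (by exact_mod_cast h0) (by exact_mod_cast h)

theorem bits_mono (A c : ℕ) : Monotone (bits A c) := by
  intro R R' h
  unfold bits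
  exact Nat.add_le_add_right (Nat.floor_mono (mul_le_mul_of_nonneg_left
    (pow_le_pow_left₀ (log_nonneg' R) (log_mono h) _) (Nat.cast_nonneg _))) _

theorem bits_le (A c R : ℕ) : (bits A c R : ℝ) ≤ A * (logb 2 (R : ℝ)) ^ c + 10 := by
  unfold bits
  have h := log_nonneg' R
  have h2 := Nat.floor_le (show 0 ≤ (A : ℝ) * (logb 2 (R : ℝ)) ^ c by positivity)
  push_cast
  linarith

theorem le_bits (A c R : ℕ) : (A : ℝ) * (logb 2 (R : ℝ)) ^ c + 9 ≤ (bits A c R : ℝ) := by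
  unfold bits
  have h2 := Nat.lt_floor_add_one ((A : ℝ) * (logb 2 (R : ℝ)) ^ c)
  push_cast
  linarith

theorem log_six {R : ℕ} (hR : 6 ≤ R) : 5 / 2 ≤ logb 2 (R : ℝ) := by
  have h1 : (6 : ℝ) ≤ R := by exact_mod_cast hR
  have h2 : (5 / 2 : ℝ) ≤ logb 2 6 := by
    rw [le_logb_iff_rpow_le (by norm_num) (by norm_num)]
    have h3 : ((2 : ℝ) ^ (5 / 2 : ℝ)) ^ (2 : ℕ) = 32 := by
      rw [← rpow_natCast, ← rpow_mul (by norm_num)]
      norm_num
    have h4 : 0 ≤ (2 : ℝ) ^ (5 / 2 : ℝ) := by positivity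
    nlinarith
  exact h2.trans (logb_le_logb_of_le (by norm_num) (by norm_num) h1)

theorem ov_le {R : ℕ} (hR : 6 ≤ R) : (ov R : ℝ) ≤ 2 * logb 2 (R : ℝ) + 10 := by
  have h1 : (Nat.clog 2 (4 * R + 2) : ℝ) ≤ logb 2 (R : ℝ) + 4 := by
    have h2 : Nat.clog 2 (4 * R + 2) ≤ Nat.log 2 R + 4 := by
      rw [Nat.clog_le_iff_le_pow (by norm_num)]
      have h3 := Nat.lt_pow_succ_log_self (b := 2) (by norm_num) R
      have h4 : (2 : ℕ) ^ (Nat.log 2 R + 4) = 8 * 2 ^ (Nat.log 2 R).succ := by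
        rw [Nat.succ_eq_add_one, pow_succ, pow_add]
        ring
      omega
    have h3 : (Nat.log 2 R : ℝ) ≤ logb 2 (R : ℝ) := by
      rw [le_logb_iff_rpow_le (by norm_num) (by exact_mod_cast (show 0 < R by omega)),
        rpow_natCast]
      exact_mod_cast Nat.pow_log_le_self 2 (by omega)
    have h4 : (Nat.clog 2 (4 * R + 2) : ℝ) ≤ (Nat.log 2 R : ℝ) + 4 := by exact_mod_cast h2
    linarith
  unfold ov
  push_cast
  linarith

theorem four_thirds : (2 / 5 : ℝ) ≤ logb 2 (4 / 3) := by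
  rw [le_logb_iff_rpow_le (by norm_num) (by norm_num)]
  have h3 : ((2 : ℝ) ^ (2 / 5 : ℝ)) ^ (5 : ℕ) = 4 := by
    rw [← rpow_natCast, ← rpow_mul (by norm_num)]
    norm_num
  by_contra hc
  push Not at hc
  have h4 : (4 / 3 : ℝ) ^ (5 : ℕ) < ((2 : ℝ) ^ (2 / 5 : ℝ)) ^ (5 : ℕ) :=
    pow_lt_pow_left₀ hc (by norm_num) (by norm_num)
  rw [h3] at h4
  norm_num at h4

theorem num_H1 (k A c : ℕ) (hc : k - 1 ≤ 2 ^ c) (hA : 100 * (k + 1) ≤ A) (R a : ℕ) (hR : 6 ≤ R)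
    (ha : 1 ≤ a) (h34 : 4 * a ≤ 3 * R) :
    bits A (c + 2) a + (k - 1) * bits A (c + 2) (part R a) + ov R ≤ bits A (c + 2) R := by
  set b := part R a with hb
  have hb1 : 1 ≤ b := by
    rw [hb]
    unfold part
    refine le_min ?_ ?_
    · rw [Nat.le_div_iff_mul_le ha]
      omega
    · rw [Nat.le_sqrt]
      omega
  have hba : b * a ≤ R := by
    have : b ≤ R / a := min_le_left _ _
    exact (Nat.le_div_iff_mul_le ha).1 this
  have hbb : b * b ≤ R := Nat.le_sqrt.1 (min_le_right _ _)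
  have hR0 : (0 : ℝ) < R := by exact_mod_cast (show 0 < R by omega)
  have ha0 : (0 : ℝ) < a := by exact_mod_cast ha
  have hb0 : (0 : ℝ) < b := by exact_mod_cast hb1
  have h1 : logb 2 (b : ℝ) + logb 2 (a : ℝ) ≤ logb 2 (R : ℝ) := by
    rw [← logb_mul hb0.ne' ha0.ne']
    exact logb_le_logb_of_le (by norm_num) (by positivity) (by exact_mod_cast hba)
  have h2 : 2 * logb 2 (b : ℝ) ≤ logb 2 (R : ℝ) := by
    have : logb 2 (b : ℝ) + logb 2 (b : ℝ) ≤ logb 2 (R : ℝ) := by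
      rw [← logb_mul hb0.ne' hb0.ne']
      exact logb_le_logb_of_le (by norm_num) (by positivity) (by exact_mod_cast hbb)
    linarith
  have h3 : logb 2 (a : ℝ) + 2 / 5 ≤ logb 2 (R : ℝ) := by
    have h4 : logb 2 (a : ℝ) + logb 2 (4 / 3) ≤ logb 2 (R : ℝ) := by
      rw [← logb_mul ha0.ne' (by norm_num)]
      refine logb_le_logb_of_le (by norm_num) (by positivity) ?_
      have : (4 * a : ℝ) ≤ 3 * R := by exact_mod_cast h34
      linarith
    have := four_thirds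
    linarith
  have hL := log_six hR
  have key := convex_bound c ((k - 1 : ℕ) : ℝ) (logb 2 (R : ℝ)) (logb 2 (a : ℝ)) (logb 2 (b : ℝ))
    (Nat.cast_nonneg _) (by exact_mod_cast hc) (by linarith) (log_nonneg' a) (log_nonneg' b) h3 h1
    h2
  have g1 := bits_le A (c + 2) a
  have g2 := bits_le A (c + 2) b
  have g3 := le_bits A (c + 2) R
  have g4 := ov_le hR
  have g5 : ((k - 1 : ℕ) : ℝ) * (bits A (c + 2) b : ℝ) ≤
      ((k - 1 : ℕ) : ℝ) * (A * (logb 2 (b : ℝ)) ^ (c + 2) + 10) :=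
    mul_le_mul_of_nonneg_left g2 (Nat.cast_nonneg _)
  have g6 : ((k - 1 : ℕ) : ℝ) ≤ k := by exact_mod_cast Nat.sub_le k 1
  have hA' : (100 * (k + 1) : ℝ) ≤ A := by exact_mod_cast hA
  have hk0 : (0 : ℝ) ≤ k := Nat.cast_nonneg _
  have key2 := mul_le_mul_of_nonneg_left key (show (0 : ℝ) ≤ A by linarith)
  have g7 : (100 * (k + 1) : ℝ) * (1 / 5 * logb 2 (R : ℝ)) ≤ A * (1 / 5 * logb 2 (R : ℝ)) :=
    mul_le_mul_of_nonneg_right hA' (by linarith)
  have g8 : (k : ℝ) * (5 / 2) ≤ k * logb 2 (R : ℝ) := mul_le_mul_of_nonneg_left hL hk0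
  have goal : ((bits A (c + 2) a + (k - 1) * bits A (c + 2) b + ov R : ℕ) : ℝ) ≤
      (bits A (c + 2) R : ℕ) := by
    push_cast
    nlinarith
  exact_mod_cast goal

theorem num_H2 (K C k A c : ℕ) (hC : C ≤ c) (hc : 1 ≤ c) (hA : K * 2 ^ C + 100 * (k + 1) ≤ A)
    (R : ℕ) (hR : 6 ≤ R) (m : ℕ) (ρ : ℝ) (hρ0 : 0 ≤ ρ) (hρ : ρ ≤ logb 2 (R : ℝ) + 1)
    (hm : (m : ℝ) ≤ K * (ρ + 1) ^ C) : m + ov R ≤ bits A c R := by
  have hL := log_six hR
  have g3 := le_bits A c R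
  have g4 := ov_le hR
  have h1 : (K : ℝ) * (ρ + 1) ^ C ≤ K * 2 ^ C * (logb 2 (R : ℝ)) ^ c := by
    calc (K : ℝ) * (ρ + 1) ^ C ≤ K * (2 * logb 2 (R : ℝ)) ^ C := by
          refine mul_le_mul_of_nonneg_left ?_ (Nat.cast_nonneg _)
          exact pow_le_pow_left₀ (by linarith) (by linarith) _
      _ = K * 2 ^ C * (logb 2 (R : ℝ)) ^ C := by rw [mul_pow]; ring
      _ ≤ K * 2 ^ C * (logb 2 (R : ℝ)) ^ c := by
          refine mul_le_mul_of_nonneg_left ?_ (by positivity)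
          exact pow_le_pow_right₀ (by linarith) hC
  have h2 : logb 2 (R : ℝ) ≤ (logb 2 (R : ℝ)) ^ c := le_self_pow₀ (by linarith) (by omega)
  have hA' : ((K : ℝ) * 2 ^ C + 100 * (k + 1)) ≤ A := by exact_mod_cast hA
  have h3 : ((K : ℝ) * 2 ^ C + 100 * (k + 1)) * (logb 2 (R : ℝ)) ^ c ≤
      A * (logb 2 (R : ℝ)) ^ c := mul_le_mul_of_nonneg_right hA' (by positivity)
  have hk0 : (0 : ℝ) ≤ k := Nat.cast_nonneg _
  have h4 : 0 ≤ (k : ℝ) * (logb 2 (R : ℝ)) ^ c := by positivity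
  have goal : ((m + ov R : ℕ) : ℝ) ≤ (bits A c R : ℕ) := by
    push_cast
    nlinarith
  exact_mod_cast goal

end Pool.Agent.V7H64.LR
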