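import Pool.Agent.TH744.LR.Prot

/-!
# Protocols on a part of the inputs; sending a number
-/

set_option autoImplicit false

namespace Pool.Agent.V7H64.LR

open Pool.Agent.TH744.LR

/-- Alice announces `R` bits, then a protocol depending on these bits is run -/
theorem aliceBits {X Y : Type} {b : ℕ} (R : ℕ) :
    ∀ (F : (Fin R → Bool) → X → Y → Bool) (e : X → Fin R → Bool), (∀ w, Prot (F w) b) →
    Prot (fun x y => F (e x) x y) (R + b) := by
  induction R with
  | zero =>
    intro F e h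
    have : (fun (x : X) (y : Y) => F (e x) x y) = fun x y => F (fun i => i.elim0) x y := by
      funext x y
      congr 1
      funext i
      exact i.elim0
    rw [this, Nat.zero_add]
    exact h _
  | succ R ih =>
    intro F e hF
    have h := Prot.bind (Prot.alice (Y := Y) (fun x : X => e x 0))
      (F := fun v x y => F (Fin.cons v (fun i => e x i.succ)) x y) (b := R + b)
      (fun v => ih (fun w x y => F (Fin.cons v w) x y) (fun x i => e x i.succ)
        (fun w => hF _))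
    have e1 : (fun (x : X) (y : Y) => F (Fin.cons (e x 0) (fun i => e x i.succ)) x y) =
        fun x y => F (e x) x y := by
      funext x y
      congr 1
      funext i
      refine Fin.cases ?_ (fun j => ?_) i <;> simp
    rw [e1] at h
    rwa [show 1 + (R + b) = R + 1 + b by ring] at h

/-- Alice announces a number smaller than `2 ^ R` -/
theorem aliceNat {X Y : Type} {b : ℕ} (R : ℕ) (F : ℕ → X → Y → Bool) (e : X → ℕ)
    (he : ∀ x, e x < 2 ^ R) (hF : ∀ i, i < 2 ^ R → Prot (F i) b) :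
    Prot (fun x y => F (e x) x y) (R + b) := by
  classical
  have hc : Fintype.card (Fin (2 ^ R)) ≤ Fintype.card (Fin R → Bool) := by simp
  obtain ⟨f⟩ := Function.Embedding.nonempty_of_card_le hc
  have : Nonempty (Fin (2 ^ R)) := ⟨⟨0, by positivity⟩⟩
  have h := aliceBits (X := X) (Y := Y) (b := b) R
    (fun w x y => F (Function.invFun f w : Fin (2 ^ R)).1 x y)
    (fun x => f ⟨e x, he x⟩) (fun w => hF _ (Function.invFun f w : Fin (2 ^ R)).2)
  have e1 : (fun (x : X) (y : Y) =>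
      F (Function.invFun f (f ⟨e x, he x⟩) : Fin (2 ^ R)).1 x y) = fun x y => F (e x) x y := by
    funext x y
    rw [Function.leftInverse_invFun f.injective]
  rw [e1] at h
  exact h

theorem bobNat {X Y : Type} {b : ℕ} (R : ℕ) (F : ℕ → X → Y → Bool) (e : Y → ℕ)
    (he : ∀ y, e y < 2 ^ R) (hF : ∀ i, i < 2 ^ R → Prot (F i) b) :
    Prot (fun x y => F (e y) x y) (R + b) :=
  (aliceNat R (fun i y x => F i x y) e he (fun i hi => (hF i hi).swap)).swap

/-- `c` bits suffice to compute `F` on the set `Ω` of pairs of inputs -/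
def On {X Y : Type} (Ω : X → Y → Prop) (F : X → Y → Bool) (c : ℕ) : Prop :=
  ∃ G : X → Y → Bool, Prot G c ∧ ∀ x y, Ω x y → G x y = F x y

theorem On.of {X Y : Type} {F : X → Y → Bool} {c : ℕ} (h : Prot F c) (Ω : X → Y → Prop) :
    On Ω F c := ⟨F, h, fun _ _ _ => rfl⟩

theorem On.all {X Y : Type} {Ω : X → Y → Prop} {F : X → Y → Bool} {c : ℕ} (h : On Ω F c)
    (hΩ : ∀ x y, Ω x y) : Prot F c := by
  obtain ⟨G, hG, h⟩ := h
  have : G = F := funext fun x => funext fun y => h x y (hΩ x y)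
  rwa [this] at hG

theorem On.bind {X Y : Type} {Ω : X → Y → Prop} {f : X → Y → Bool} {c : ℕ} (hf : On Ω f c)
    {F : X → Y → Bool} {b : ℕ} (hF : ∀ v, On (fun x y => Ω x y ∧ f x y = v) F b) :
    On Ω F (c + b) := by
  obtain ⟨G, hG, h⟩ := hf
  choose G2 hG2 h2 using hF
  refine ⟨fun x y => G2 (G x y) x y, Prot.bind hG hG2, fun x y hxy => ?_⟩
  exact h2 (G x y) x y ⟨hxy, (h x y hxy).symm⟩

theorem On.mono {X Y : Type} {Ω Ω' : X → Y → Prop} {F : X → Y → Bool} {c c' : ℕ}
    (h : On Ω F c) (hΩ : ∀ x y, Ω' x y → Ω x y) (hc : c ≤ c') : On Ω' F c' := by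
  obtain ⟨G, hG, h⟩ := h
  exact ⟨G, hG.mono hc, fun x y hxy => h x y (hΩ x y hxy)⟩

theorem On.congr {X Y : Type} {Ω : X → Y → Prop} {F F' : X → Y → Bool} {c : ℕ}
    (h : On Ω F c) (hF : ∀ x y, Ω x y → F x y = F' x y) : On Ω F' c := by
  obtain ⟨G, hG, h⟩ := h
  exact ⟨G, hG, fun x y hxy => (h x y hxy).trans (hF x y hxy)⟩

theorem On.lift {X Y X' Y' : Type} {Ω : X → Y → Prop} {F : X → Y → Bool} {c : ℕ}
    (h : On Ω F c) (p : X' → X) (q : Y' → Y) :
    On (fun x y => Ω (p x) (q y)) (fun x y => F (p x) (q y)) c := by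
  obtain ⟨G, hG, h⟩ := h
  exact ⟨_, hG.lift p q, fun x y hxy => h _ _ hxy⟩

/-- a function constant on `Ω` -/
theorem On.const {X Y : Type} {Ω : X → Y → Prop} {F : X → Y → Bool} (c : ℕ)
    (h : ∀ x y x' y', Ω x y → Ω x' y' → F x y = F x' y') : On Ω F c := by
  by_cases hne : ∃ x y, Ω x y
  · obtain ⟨x₀, y₀, h0⟩ := hne
    exact ⟨fun _ _ => F x₀ y₀, (Prot.const _).mono (Nat.zero_le c),
      fun x y hxy => h _ _ _ _ h0 hxy⟩
  · exact ⟨fun _ _ => true, (Prot.const _).mono (Nat.zero_le c),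
      fun x y hxy => absurd ⟨x, y, hxy⟩ hne⟩

end Pool.Agent.V7H64.LR
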