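import Pool.Agent.TH744.LR.Rank
import Pool.Agent.V7H64.LR.Pro

/-!
# The spaces of row differences
-/

set_option autoImplicit false

namespace Pool.Agent.V7H64.LR

open Pool.Agent.TH744.LR Module

variable {X Y Z W : Type}

/-- the difference of two rows -/
noncomputable def rd (F : X → Y → Bool) (x x' : X) : Y → ℝ := fun y => bv (F x y) - bv (F x' y)

/-- the span of the differences of the rows -/
def DS (F : X → Y → Bool) : Submodule ℝ (Y → ℝ) :=
  Submodule.span ℝ {d | ∃ x x', d = rd F x x'}

/-- the dimension of the span of the differences of the rows -/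
noncomputable def tau (F : X → Y → Bool) : ℕ := finrank ℝ (DS F)

/-- the transposed function -/
def tr (F : X → Y → Bool) : Y → X → Bool := fun y x => F x y

/-- the larger one of the two dimensions -/
noncomputable def mu (F : X → Y → Bool) : ℕ := max (tau F) (tau (tr F))

theorem mu_tr (F : X → Y → Bool) : mu (tr F) = mu F := by
  unfold mu
  rw [max_comm]
  rfl

theorem rd_mem (F : X → Y → Bool) (x x' : X) : rd F x x' ∈ DS F :=
  Submodule.subset_span ⟨x, x', rfl⟩

theorem bv_inj {a b : Bool} (h : bv a = bv b) : a = b := by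
  cases a <;> cases b <;> simp [bv] at h <;> rfl

/-- the row space -/
def RS (F : X → Y → Bool) : Submodule ℝ (Y → ℝ) :=
  Submodule.span ℝ (Set.range fun x : X => fun y => bv (F x y))

theorem rank_eq [Fintype X] [Fintype Y] (F : X → Y → Bool) :
    (cm F).rank = finrank ℝ (RS F) := by
  rw [Matrix.rank_eq_finrank_span_row]
  rfl

theorem DS_le_RS (F : X → Y → Bool) : DS F ≤ RS F := by
  unfold DS
  rw [Submodule.span_le]
  rintro d ⟨x, x', rfl⟩
  exact Submodule.sub_mem _ (Submodule.subset_span ⟨x, rfl⟩) (Submodule.subset_span ⟨x', rfl⟩)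

theorem tau_le_rank [Fintype X] [Fintype Y] (F : X → Y → Bool) : tau F ≤ (cm F).rank := by
  rw [rank_eq]
  exact Submodule.finrank_mono (DS_le_RS F)

theorem cm_tr (F : X → Y → Bool) : cm (tr F) = (cm F).transpose := by
  ext y x
  rfl

theorem rank_tr [Fintype X] [Fintype Y] (F : X → Y → Bool) : (cm (tr F)).rank = (cm F).rank := by
  rw [cm_tr, Matrix.rank_transpose]

theorem mu_le_rank [Fintype X] [Fintype Y] (F : X → Y → Bool) : mu F ≤ (cm F).rank := by
  unfold mu
  refine max_le (tau_le_rank F) ?_
  rw [← rank_tr]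
  exact tau_le_rank (tr F)

theorem rank_le_tau [Fintype X] [Fintype Y] (F : X → Y → Bool) : (cm F).rank ≤ tau F + 1 := by
  classical
  rw [rank_eq]
  by_cases hX : Nonempty X
  · obtain ⟨x₀⟩ := hX
    have h : RS F ≤ DS F ⊔ Submodule.span ℝ {fun y => bv (F x₀ y)} := by
      unfold RS
      rw [Submodule.span_le]
      rintro _ ⟨x, rfl⟩
      have e : (fun y => bv (F x y)) = rd F x x₀ + fun y => bv (F x₀ y) := by
        funext y
        simp [rd]
      show (fun y => bv (F x y)) ∈ _
      rw [e]
      exact Submodule.add_mem_sup (rd_mem F x x₀) (Submodule.mem_span_singleton_self _)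
    calc finrank ℝ (RS F) ≤ finrank ℝ ↥(DS F ⊔ Submodule.span ℝ {fun y => bv (F x₀ y)}) :=
          Submodule.finrank_mono h
      _ ≤ finrank ℝ (DS F) + finrank ℝ (Submodule.span ℝ {fun y => bv (F x₀ y)}) :=
          Submodule.finrank_add_le_finrank_add_finrank _ _
      _ ≤ tau F + 1 := Nat.add_le_add_left
          ((finrank_span_le_card _).trans (by simp)) _
  · have : RS F = ⊥ := by
      unfold RS
      have : Set.range (fun x : X => fun y => bv (F x y)) = ∅ := by
        rw [Set.range_eq_empty_iff]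
        exact not_nonempty_iff.1 hX
      rw [this, Submodule.span_empty]
    rw [this, finrank_bot]
    omega

theorem rank_le_mu [Fintype X] [Fintype Y] (F : X → Y → Bool) : (cm F).rank ≤ mu F + 1 :=
  (rank_le_tau F).trans (Nat.add_le_add_right (le_max_left _ _) _)

theorem mu_le_tau [Finite X] [Finite Y] (F : X → Y → Bool) : mu F ≤ tau F + 1 := by
  have := Fintype.ofFinite X
  have := Fintype.ofFinite Y
  exact (mu_le_rank F).trans (rank_le_tau F)

/-- the trivial protocol -/
theorem prot_rank [Fintype X] [Fintype Y] (F : X → Y → Bool) : Prot F ((cm F).rank + 1) := by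
  classical
  obtain ⟨f, hf, hs, _⟩ := Submodule.exists_fun_fin_finrank_span_eq ℝ
    (Set.range (cm (tr F)).row)
  choose ys hys using hf
  have hr : finrank ℝ (Submodule.span ℝ (Set.range (cm (tr F)).row)) = (cm F).rank := by
    rw [← Matrix.rank_eq_finrank_span_row, rank_tr]
  have key : ∀ x x' : X, (∀ a, F x (ys a) = F x' (ys a)) → ∀ y, F x y = F x' y := by
    intro x x' h y
    let e : (X → ℝ) →ₗ[ℝ] ℝ := (LinearMap.proj (R := ℝ) (φ := fun _ : X => ℝ) x) -
      (LinearMap.proj (R := ℝ) (φ := fun _ : X => ℝ) x')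
    have h1 : Submodule.span ℝ (Set.range f) ≤ LinearMap.ker e := by
      rw [Submodule.span_le]
      rintro _ ⟨a, rfl⟩
      rw [SetLike.mem_coe, LinearMap.mem_ker]
      rw [← hys a]
      show bv (F x (ys a)) - bv (F x' (ys a)) = 0
      rw [h a, sub_self]
    have h2 : (cm (tr F)).row y ∈ Submodule.span ℝ (Set.range f) := by
      rw [hs]
      exact Submodule.subset_span ⟨y, rfl⟩
    have h3 := h1 h2
    rw [LinearMap.mem_ker] at h3
    have h4 : bv (F x y) - bv (F x' y) = 0 := h3
    exact bv_inj (sub_eq_zero.1 h4)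
  have h := Prot.code (X := X) _ (fun (w : Fin (finrank ℝ (Submodule.span ℝ
    (Set.range (cm (tr F)).row))) → Bool) y => if h : ∃ x, (fun a => F x (ys a)) = w then
    F h.choose y else true) (fun x a => F x (ys a))
  have e1 : (fun (x : X) (y : Y) => if h : ∃ x', (fun a => F x' (ys a)) = (fun a => F x (ys a)) then
      F h.choose y else true) = F := by
    funext x y
    have hx : ∃ x', (fun a => F x' (ys a)) = (fun a => F x (ys a)) := ⟨x, rfl⟩
    rw [dif_pos hx]
    exact key _ _ (fun a => congrFun hx.choose_spec a) y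
  rw [e1] at h
  rwa [hr] at h

theorem prot_mu [Finite X] [Finite Y] (F : X → Y → Bool) : Prot F (mu F + 2) := by
  have := Fintype.ofFinite X
  have := Fintype.ofFinite Y
  exact (prot_rank F).mono (by have := rank_le_mu F; omega)

/-- an inequality for the dimension of a space which contains products -/
theorem prod_dim [Finite Y] [Finite W] (U : Submodule ℝ (Y → ℝ)) (D : Submodule ℝ (W → ℝ))
    (E : Submodule ℝ (Y → ℝ)) (q : Y → W) (κ : Y → W → Y) (hq : ∀ y b, q (κ y b) = b)
    (hU : ∀ u ∈ U, ∀ y b, u (κ y b) = u y)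
    (hE : ∀ u ∈ U, ∀ d ∈ D, (fun y => u y * d (q y)) ∈ E) :
    finrank ℝ U * finrank ℝ D ≤ finrank ℝ E := by
  classical
  set bU := Module.finBasis ℝ U with hbU
  set bD := Module.finBasis ℝ D with hbD
  let v : Fin (finrank ℝ U) × Fin (finrank ℝ D) → E := fun p =>
    ⟨fun y => (bU p.1 : Y → ℝ) y * (bD p.2 : W → ℝ) (q y), hE _ (bU p.1).2 _ (bD p.2).2⟩
  have hv : LinearIndependent ℝ v := by
    rw [Fintype.linearIndependent_iff]
    intro l hl
    have h1 : ∀ y, ∑ p, l p * ((bU p.1 : Y → ℝ) y * (bD p.2 : W → ℝ) (q y)) = 0 := by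
      intro y
      have := congrFun (congrArg Subtype.val hl) y
      simpa [v, Finset.sum_apply] using this
    have h2 : ∀ b j, ∑ k, l (j, k) * (bD k : W → ℝ) b = 0 := by
      intro b
      have h3 := bU.linearIndependent
      rw [Fintype.linearIndependent_iff] at h3
      refine h3 (fun j => ∑ k, l (j, k) * (bD k : W → ℝ) b) ?_
      apply Subtype.ext
      funext y
      have h4 := h1 (κ y b)
      rw [Fintype.sum_prod_type] at h4
      have h5 : ((∑ j, (∑ k, l (j, k) * (bD k : W → ℝ) b) • bU j : U) : Y → ℝ) y =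
          ∑ j, (∑ k, l (j, k) * (bD k : W → ℝ) b) * (bU j : Y → ℝ) y := by
        simp [Finset.sum_apply]
      rw [h5]
      show _ = (0 : ℝ)
      rw [← h4]
      refine Finset.sum_congr rfl fun j _ => ?_
      rw [Finset.sum_mul]
      refine Finset.sum_congr rfl fun k _ => ?_
      rw [hU _ (bU j).2, hq]
      ring
    rintro ⟨j, k⟩
    have h3 := bD.linearIndependent
    rw [Fintype.linearIndependent_iff] at h3
    refine h3 (fun k => l (j, k)) ?_ k
    apply Subtype.ext
    funext b
    have h5 : ((∑ k, l (j, k) • bD k : D) : W → ℝ) b = ∑ k, l (j, k) * (bD k : W → ℝ) b := by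
      simp [Finset.sum_apply]
    rw [h5, h2 b j]
    rfl
  have := hv.fintype_card_le_finrank
  simpa using this

end Pool.Agent.V7H64.LR
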